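import Pool.Agent.Lib_MP_75bf3e_hb.Pow

/-! # The test function -/

set_option autoImplicit false

open MeasureTheory Metric

namespace Pool.MP_75bf3e_an.HB

theorem exists_bump (n : ℕ) (hn : 1 ≤ n) (k : ℝ) (hk : k = 1 + Real.log n) :
    ∃ g : ℂ → ℝ, ContDiff ℝ ((⊤ : ℕ∞) : WithTop ℕ∞) g ∧ (∀ y, 0 ≤ g y) ∧
      (∀ y, 1 / (16 * (n : ℝ)) ≤ ‖y‖ → g y = 0) ∧
      (∀ y, y ≠ 0 → g y * (√k * ‖y‖ ^ (2 - 1 / k)) ≤ 1) ∧ √k / 100 ≤ ∫ y, g y := by
  have hn1 : (1 : ℝ) ≤ n := by exact_mod_cast hn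
  have hn0 : (0 : ℝ) < n := by linarith
  have hlog : 0 ≤ Real.log n := Real.log_nonneg hn1
  have hk1 : 1 ≤ k := by linarith
  have hk0 : 0 < k := by linarith
  have hsk : 0 < √k := Real.sqrt_pos.2 hk0
  have he : 0 < 1 / k := by positivity
  have he1 : 1 / k ≤ 1 := by rw [div_le_one hk0]; exact hk1
  have hpi := Real.pi_pos
  set e : ℝ := 1 / k with hedef
  set r : ℝ := 1 / (16 * (n : ℝ)) with hr
  have hr0 : 0 < r := by positivity
  set η : ℝ := r / 2 * Real.exp (-k) with hη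
  have hη0 : 0 < η := by positivity
  have hηr : η ≤ r / 2 := by
    have : Real.exp (-k) ≤ 1 := Real.exp_le_one_iff.2 (by linarith)
    calc η = r / 2 * Real.exp (-k) := rfl
      _ ≤ r / 2 * 1 := by gcongr
      _ = r / 2 := mul_one _
  let χ : ContDiffBump (0 : ℂ) := ⟨r / 2, r, by positivity, by linarith⟩
  have hχ1 : ∀ y : ℂ, ‖y‖ ≤ r / 2 → χ y = 1 := fun y hy =>
    χ.one_of_mem_closedBall (by rw [mem_closedBall, dist_zero_right]; exact hy)
  have hχ0 : ∀ y : ℂ, r ≤ ‖y‖ → χ y = 0 := fun y hy =>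
    χ.zero_of_le_dist (by rw [dist_zero_right]; exact hy)
  set g : ℂ → ℝ := fun y => (√k)⁻¹ * (‖y‖ ^ 2 + η ^ 2) ^ ((-2 + e) / 2) * χ y with hg
  have hpos : ∀ y : ℂ, 0 < ‖y‖ ^ 2 + η ^ 2 := fun y => by positivity
  have hsm : ContDiff ℝ ((⊤ : ℕ∞) : WithTop ℕ∞) g := by
    have h1 : ContDiff ℝ ((⊤ : ℕ∞) : WithTop ℕ∞) (fun y : ℂ => ‖y‖ ^ 2 + η ^ 2) :=
      (contDiff_norm_sq ℝ).add contDiff_const
    have h2 : ContDiff ℝ ((⊤ : ℕ∞) : WithTop ℕ∞)
        (fun y : ℂ => (‖y‖ ^ 2 + η ^ 2) ^ ((-2 + e) / 2)) :=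
      h1.rpow_const_of_ne fun y => (hpos y).ne'
    exact (contDiff_const.mul h2).mul χ.contDiff
  have hnn : ∀ y, 0 ≤ g y := fun y => by
    have h1 : 0 ≤ χ y := χ.nonneg
    have h2 : 0 ≤ (‖y‖ ^ 2 + η ^ 2) ^ ((-2 + e) / 2) := Real.rpow_nonneg (hpos y).le _
    exact mul_nonneg (mul_nonneg (by positivity) h2) h1
  have hsupp : ∀ y, r ≤ ‖y‖ → g y = 0 := fun y hy => by
    simp only [hg, hχ0 y hy, mul_zero]
  have hcs : HasCompactSupport g := by
    refine HasCompactSupport.intro (isCompact_closedBall (0 : ℂ) r) fun y hy => ?_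
    rw [mem_closedBall, dist_zero_right, not_le] at hy
    exact hsupp y hy.le
  refine ⟨g, hsm, hnn, hsupp, ?_, ?_⟩
  · intro y hy
    have hy0 : 0 < ‖y‖ := norm_pos_iff.2 hy
    have h1 : (‖y‖ ^ 2 + η ^ 2) ^ ((-2 + e) / 2) ≤ (‖y‖ ^ 2) ^ ((-2 + e) / 2) :=
      Real.rpow_le_rpow_of_nonpos (by positivity) (by nlinarith [sq_nonneg η]) (by linarith)
    have h2 : (‖y‖ ^ 2) ^ ((-2 + e) / 2) = ‖y‖ ^ (-2 + e) := by
      rw [← Real.rpow_natCast, ← Real.rpow_mul hy0.le]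
      congr 1
      push_cast
      ring
    rw [h2] at h1
    have h3 : χ y ≤ 1 := χ.le_one
    have h4 : 0 ≤ χ y := χ.nonneg
    have h5 : ‖y‖ ^ (-2 + e) * ‖y‖ ^ (2 - e) = 1 := by
      rw [← Real.rpow_add hy0, show -2 + e + (2 - e) = 0 by ring, Real.rpow_zero]
    calc g y * (√k * ‖y‖ ^ (2 - e))
        = ((‖y‖ ^ 2 + η ^ 2) ^ ((-2 + e) / 2) * ‖y‖ ^ (2 - e)) * χ y := by
          simp only [hg]
          field_simp
      _ ≤ (‖y‖ ^ (-2 + e) * ‖y‖ ^ (2 - e)) * 1 := by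
          have h6 : 0 ≤ ‖y‖ ^ (2 - e) := by positivity
          gcongr
      _ = 1 := by rw [h5, one_mul]
  · -- the integral
    have hgi : Integrable g volume := hsm.continuous.integrable_of_hasCompactSupport hcs
    set P : ℂ → ℝ := fun z => ‖z‖ ^ (-2 + e) with hP
    have hb1 := pow_ball (-2 + e) (by linarith) (r / 2) (by positivity)
    have hb2 := pow_ball (-2 + e) (by linarith) η hη0
    rw [show -2 + e + 2 = e by ring] at hb1 hb2
    set D : Set ℂ := ball 0 (r / 2) \ ball 0 η with hD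
    have hDm : MeasurableSet D := measurableSet_ball.diff measurableSet_ball
    have hsub : ball (0 : ℂ) η ⊆ ball 0 (r / 2) := ball_subset_ball hηr
    have hDi : ∫ z in D, P z = 2 * Real.pi * ((r / 2) ^ e / e) - 2 * Real.pi * (η ^ e / e) := by
      rw [hD, integral_diff measurableSet_ball hb1.1 hsub]
      exact congrArg₂ (· - ·) hb1.2 hb2.2
    have h1 : ∫ z in D, (√k)⁻¹ * (1 / 2) * P z ≤ ∫ z in D, g z := by
      refine setIntegral_mono_on ((hb1.1.mono_set Set.diff_subset).const_mul _) hgi.integrableOn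
        hDm fun y hy => ?_
      have hy1 : ‖y‖ < r / 2 := by have := hy.1; rwa [mem_ball_zero_iff] at this
      have hy2 : η ≤ ‖y‖ := by
        have := hy.2
        rwa [mem_ball_zero_iff, not_lt] at this
      have hy0 : 0 < ‖y‖ := hη0.trans_le hy2
      have h2 : (2 * ‖y‖ ^ 2) ^ ((-2 + e) / 2) ≤ (‖y‖ ^ 2 + η ^ 2) ^ ((-2 + e) / 2) :=
        Real.rpow_le_rpow_of_nonpos (hpos y) (by nlinarith) (by linarith)
      have h3 : (2 * ‖y‖ ^ 2) ^ ((-2 + e) / 2) = 2 ^ ((-2 + e) / 2) * ‖y‖ ^ (-2 + e) := by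
        rw [Real.mul_rpow (by norm_num) (by positivity)]
        congr 1
        rw [← Real.rpow_natCast, ← Real.rpow_mul hy0.le]
        congr 1
        push_cast
        ring
      have h4 : (1 / 2 : ℝ) ≤ 2 ^ ((-2 + e) / 2) := by
        calc (1 / 2 : ℝ) = 2 ^ (-1 : ℝ) := by rw [Real.rpow_neg_one]; norm_num
          _ ≤ 2 ^ ((-2 + e) / 2) := Real.rpow_le_rpow_of_exponent_le (by norm_num) (by linarith)
      have h5 : 0 ≤ ‖y‖ ^ (-2 + e) := by positivity
      rw [h3] at h2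
      simp only [hg, hP]
      rw [hχ1 y hy1.le, mul_one, mul_assoc]
      refine mul_le_mul_of_nonneg_left ?_ (by positivity)
      exact (mul_le_mul_of_nonneg_right h4 h5).trans h2
    rw [integral_const_mul, hDi] at h1
    have h2 : ∫ z in D, g z ≤ ∫ z, g z :=
      setIntegral_le_integral hgi (Filter.Eventually.of_forall hnn)
    -- numerical part
    have hηe : η ^ e = (r / 2) ^ e * Real.exp (-1) := by
      rw [hη, Real.mul_rpow (by positivity) (Real.exp_pos _).le, ← Real.exp_mul]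
      congr 2
      rw [hedef]
      field_simp
    have hre : (1 / 32) * Real.exp (-1) ≤ (r / 2) ^ e := by
      have e1 : r / 2 = (1 / 32) * (n : ℝ)⁻¹ := by rw [hr]; field_simp; norm_num
      rw [e1, Real.mul_rpow (by norm_num) (by positivity)]
      have e2 : (1 / 32 : ℝ) ≤ (1 / 32) ^ e := by
        calc (1 / 32 : ℝ) = (1 / 32) ^ (1 : ℝ) := (Real.rpow_one _).symm
          _ ≤ (1 / 32) ^ e := Real.rpow_le_rpow_of_exponent_ge (by norm_num) (by norm_num) he1
      have e3 : Real.exp (-1) ≤ ((n : ℝ)⁻¹) ^ e := by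
        rw [Real.inv_rpow hn0.le, ← Real.rpow_neg hn0.le, Real.rpow_def_of_pos hn0]
        refine Real.exp_le_exp.2 ?_
        have e4 : Real.log n * e ≤ 1 := by
          rw [hedef, mul_one_div, div_le_one hk0]
          linarith
        linarith
      exact mul_le_mul e2 e3 (Real.exp_pos _).le (by positivity)
    have hexp : Real.exp (-1) ≤ 1 / 2 := by
      rw [Real.exp_neg, one_div]
      have := Real.exp_one_gt_d9
      exact inv_anti₀ (by norm_num) (by linarith)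
    have hexp2 : (1 / 3 : ℝ) ≤ Real.exp (-1) := by
      rw [Real.exp_neg, one_div]
      have := Real.exp_one_lt_d9
      exact inv_anti₀ (Real.exp_pos _) (by linarith)
    have hke : √k * √k = k := Real.mul_self_sqrt hk0.le
    have h3 : (√k)⁻¹ * (1 / 2) * (2 * Real.pi * ((r / 2) ^ e / e) - 2 * Real.pi * (η ^ e / e)) =
        √k * (Real.pi * ((r / 2) ^ e * (1 - Real.exp (-1)))) := by
      rw [hηe, hedef]
      have : (√k)⁻¹ * k = √k := by
        nth_rewrite 2 [← hke]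
        field_simp
      calc _ = ((√k)⁻¹ * k) * (Real.pi * ((r / 2) ^ (1 / k) * (1 - Real.exp (-1)))) := by
            field_simp
        _ = _ := by rw [this]
    rw [h3] at h1
    refine le_trans ?_ (h1.trans h2)
    rw [div_eq_mul_inv]
    refine mul_le_mul_of_nonneg_left ?_ hsk.le
    have hpi3 := Real.pi_gt_three
    have h5 : (1 / 96 : ℝ) ≤ (r / 2) ^ e := le_trans (by linarith) hre
    have h6 : (1 / 192 : ℝ) ≤ (r / 2) ^ e * (1 - Real.exp (-1)) := by nlinarith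
    nlinarith

end Pool.MP_75bf3e_an.HB
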