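import Pool.Agent.Lib_MP_75bf3e_hb.Lat
import Pool.Agent.Lib_MP_75bf3e.Sq

/-! # Convergence of the sum over the second lattice -/

set_option autoImplicit false

open MeasureTheory Metric Filter Topology

namespace Pool.MP_75bf3e_an.HB

open Pool.MP_75bf3e_an.BT

theorem hb_om_norm (n : ℕ) : ‖om n‖ = 1 := by
  unfold om
  rw [mul_comm]
  exact Complex.norm_exp_ofReal_mul_I _

theorem hb_om_pow (n : ℕ) (hn : 1 ≤ n) : (starRingEnd ℂ (om n) / om n) ^ n = -1 := by
  have hn' : (n : ℂ) ≠ 0 := by exact_mod_cast (by omega : n ≠ 0)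
  have h1 : starRingEnd ℂ (om n) = Complex.exp (-(Complex.I * ((Real.pi / (2 * n) : ℝ) : ℂ))) := by
    unfold om
    rw [← Complex.exp_conj, map_mul, Complex.conj_I, Complex.conj_ofReal, neg_mul]
  rw [h1]
  unfold om
  rw [← Complex.exp_sub, ← Complex.exp_nat_mul]
  have h2 : (n : ℂ) * (-(Complex.I * ((Real.pi / (2 * n) : ℝ) : ℂ)) - Complex.I * ((Real.pi / (2 * n) : ℝ) : ℂ))
      = -(Real.pi * Complex.I) := by
    push_cast
    field_simp
    ring
  rw [h2, Complex.exp_neg, Complex.exp_pi_mul_I]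
  norm_num

theorem F_rot (n : ℕ) (hn : 1 ≤ n) (z : ℂ) : F n (om n * z) = - F n z := by
  unfold F
  rw [norm_mul, hb_om_norm, one_mul, map_mul, mul_div_mul_comm, mul_pow, hb_om_pow n hn]
  ring

theorem measurable_F (n : ℕ) : Measurable (F n) := by
  unfold F
  exact ((Complex.continuous_conj.measurable.div measurable_id).pow_const n).div
    (Complex.measurable_ofReal.comp (measurable_norm.pow_const 2))

open Classical in
/-- the kernel away from `0` -/
noncomputable def G (n : ℕ) (z : ℂ) : ℂ := if 3 < ‖z‖ then F n z else 0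

theorem measurable_G (n : ℕ) : Measurable (G n) := by
  unfold G
  exact Measurable.ite (measurableSet_lt measurable_const measurable_norm) (measurable_F n)
    measurable_const

theorem norm_G_le (n : ℕ) (z : ℂ) : ‖G n z‖ ≤ 1 := by
  unfold G
  split_ifs with h
  · refine (norm_F_le n z).trans ?_
    apply inv_le_one_of_one_le₀
    nlinarith
  · rw [norm_zero]
    exact zero_le_one

theorem norm_G_le' (n : ℕ) (z : ℂ) (a : ℝ) (ha : 0 < a) (hz : a ≤ ‖z‖) : ‖G n z‖ ≤ (a ^ 2)⁻¹ := by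
  unfold G
  split_ifs with h
  · refine (norm_F_le n z).trans ?_
    exact inv_anti₀ (by positivity) (pow_le_pow_left₀ ha.le hz 2)
  · rw [norm_zero]
    positivity

theorem G_integrableOn (n : ℕ) (s : Set ℂ) (hs : volume s ≠ ⊤) : IntegrableOn (G n) s volume := by
  have hc : IntegrableOn (fun _ : ℂ => (1 : ℝ)) s volume := integrableOn_const hs
  exact hc.mono' (measurable_G n).aestronglyMeasurable
    (Eventually.of_forall fun z => norm_G_le n z)

theorem G_ball (n : ℕ) (hn : 1 ≤ n) (X : ℝ) : ∫ z in ball (0 : ℂ) X, G n z = 0 := by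
  rw [← integral_indicator measurableSet_ball]
  set H : ℂ → ℂ := (ball (0 : ℂ) X).indicator (G n) with hH
  let c : Circle := ⟨om n, by simp [Submonoid.unitSphere, hb_om_norm]⟩
  have h := (rotation c).measurePreserving.integral_comp
    (rotation c).toHomeomorph.measurableEmbedding H
  have h2 : ∀ z, H (rotation c z) = - H z := fun z => by
    rw [rotation_apply]
    change H (om n * z) = - H z
    have hnorm : ‖om n * z‖ = ‖z‖ := by rw [norm_mul, hb_om_norm, one_mul]
    by_cases hz : z ∈ ball (0 : ℂ) X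
    · have hz' : om n * z ∈ ball (0 : ℂ) X := by
        rw [mem_ball_zero_iff] at hz ⊢
        rw [hnorm]; exact hz
      rw [hH, Set.indicator_of_mem hz, Set.indicator_of_mem hz']
      unfold G
      rw [hnorm, F_rot n hn]
      split_ifs <;> simp
    · have hz' : om n * z ∉ ball (0 : ℂ) X := by
        rw [mem_ball_zero_iff] at hz ⊢
        rw [hnorm]; exact hz
      rw [hH, Set.indicator_of_notMem hz, Set.indicator_of_notMem hz', neg_zero]
  simp_rw [h2] at h
  rw [integral_neg] at h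
  exact self_eq_neg.mp h.symm

/-! ### cells -/

/-- the cell of a point of the second lattice -/
def cell (j : ℤ × ℤ) : Set ℂ := {z | fl (z - tau) = j}

theorem cell_eq (j : ℤ × ℤ) : cell j = sq ⟨(j.1 : ℝ) - 1 / 4, (j.2 : ℝ) - 3 / 4⟩ 1 := by
  ext z
  have hre : tau.re = 1 / 4 := rfl
  have him : tau.im = -(1 / 4) := rfl
  change fl (z - tau) = j ↔ ((j.1 : ℝ) - 1 / 4 ≤ z.re ∧ z.re < (j.1 : ℝ) - 1 / 4 + 1 ∧
    (j.2 : ℝ) - 3 / 4 ≤ z.im ∧ z.im < (j.2 : ℝ) - 3 / 4 + 1)
  unfold fl
  rw [Prod.ext_iff]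
  change (⌊(z - tau).re + 1 / 2⌋ = j.1 ∧ ⌊(z - tau).im + 1 / 2⌋ = j.2) ↔ _
  rw [Int.floor_eq_iff, Int.floor_eq_iff, Complex.sub_re, Complex.sub_im, hre, him]
  constructor
  · rintro ⟨⟨h1, h2⟩, h3, h4⟩
    exact ⟨by linarith, by linarith, by linarith, by linarith⟩
  · rintro ⟨h1, h2, h3, h4⟩
    exact ⟨⟨by linarith, by linarith⟩, by linarith, by linarith⟩

theorem measurableSet_cell (j : ℤ × ℤ) : MeasurableSet (cell j) := by
  rw [cell_eq]
  exact measurableSet_sq _ _

theorem volume_cell (j : ℤ × ℤ) : volume (cell j) = 1 := by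
  rw [cell_eq, volume_sq _ zero_le_one, mul_one, ENNReal.ofReal_one]

theorem cell_near (j : ℤ × ℤ) (z : ℂ) (hz : z ∈ cell j) : ‖z - vt j‖ ≤ 3 / 4 := by
  rw [cell_eq] at hz
  obtain ⟨g1, g2, g3, g4⟩ := hz
  change (j.1 : ℝ) - 1 / 4 ≤ z.re at g1
  change z.re < (j.1 : ℝ) - 1 / 4 + 1 at g2
  change (j.2 : ℝ) - 3 / 4 ≤ z.im at g3
  change z.im < (j.2 : ℝ) - 3 / 4 + 1 at g4
  have h1 : |(z - vt j).re| ≤ 1 / 2 := by
    rw [Complex.sub_re, vt_re, abs_le]
    constructor <;> linarith
  have h2 : |(z - vt j).im| ≤ 1 / 2 := by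
    rw [Complex.sub_im, vt_im, abs_le]
    constructor <;> linarith
  have h3 : ‖z - vt j‖ ^ 2 = |(z - vt j).re| ^ 2 + |(z - vt j).im| ^ 2 := by
    rw [← Complex.normSq_eq_norm_sq, Complex.normSq_apply, sq_abs, sq_abs]
    ring
  have h4 := abs_nonneg (z - vt j).re
  have h5 := abs_nonneg (z - vt j).im
  by_contra hcon
  push Not at hcon
  nlinarith

theorem cell_disjoint (i j : ℤ × ℤ) (h : i ≠ j) : Disjoint (cell i) (cell j) := by
  refine Set.disjoint_left.2 fun z hz hz' => h ?_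
  have h1 : fl (z - tau) = i := hz
  have h2 : fl (z - tau) = j := hz'
  rw [← h1, h2]

/-- the difference between the sum and the integral on one cell -/
noncomputable def cd (n : ℕ) (j : ℤ × ℤ) : ℂ := F n (vt j) - ∫ z in cell j, G n z

theorem cd_le (n : ℕ) (hn : 1 ≤ n) (j : ℤ × ℤ) : ‖cd n j‖ ≤ (700 + 14 * n) * (‖vt j‖ ^ 3)⁻¹ := by
  have hn1 : (1 : ℝ) ≤ n := by exact_mod_cast hn
  have h7 := vt_norm_ge j
  have hv0 : 0 < ‖vt j‖ := by linarith
  have hvol : volume (cell j) ≠ ⊤ := by rw [volume_cell]; exact ENNReal.one_ne_top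
  have hreal : volume.real (cell j) = 1 := by
    unfold Measure.real
    rw [volume_cell]
    rfl
  rcases le_or_gt 4 ‖vt j‖ with h4 | h4
  · have hci : IntegrableOn (fun _ : ℂ => F n (vt j)) (cell j) volume := integrableOn_const hvol
    have e1 : cd n j = ∫ z in cell j, (F n (vt j) - G n z) := by
      rw [integral_sub hci (G_integrableOn n _ hvol), setIntegral_const, hreal, one_smul]
      rfl
    rw [e1]
    have h5 : ∀ z ∈ cell j, ‖F n (vt j) - G n z‖ ≤ 14 * n * (‖vt j‖ ^ 3)⁻¹ := by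
      intro z hz
      have h6 := cell_near j z hz
      have h8 : ‖vt j‖ ≤ ‖z‖ + ‖z - vt j‖ := by
        calc ‖vt j‖ = ‖z - (z - vt j)‖ := by congr 1; ring
          _ ≤ _ := norm_sub_le _ _
      have h9 : G n z = F n z := by
        unfold G
        rw [if_pos (by linarith)]
      have h10 := F_lip n hn (vt j) (z - vt j) (vt_ne j) (by linarith)
      rw [show vt j + (z - vt j) = z by ring] at h10
      rw [h9, norm_sub_rev]
      refine h10.trans ?_
      have h11 : 14 * (n : ℝ) * ‖z - vt j‖ ≤ 14 * n * 1 := by gcongr; linarith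
      calc 14 * (n : ℝ) * ‖z - vt j‖ * (‖vt j‖ ^ 3)⁻¹ ≤ 14 * n * 1 * (‖vt j‖ ^ 3)⁻¹ := by gcongr
        _ = _ := by ring
    have h12 := norm_setIntegral_le_of_norm_le_const (lt_top_iff_ne_top.2 hvol) h5
    rw [hreal, mul_one] at h12
    refine h12.trans ?_
    have : 0 < (‖vt j‖ ^ 3)⁻¹ := by positivity
    nlinarith
  · have h1 : ‖∫ z in cell j, G n z‖ ≤ 1 := by
      have h12 := norm_setIntegral_le_of_norm_le_const (lt_top_iff_ne_top.2 hvol)
        (fun z (_ : z ∈ cell j) => norm_G_le n z)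
      rwa [hreal, mul_one] at h12
    have h2 : ‖F n (vt j)‖ ≤ 9 := by
      refine (norm_F_le n _).trans ?_
      rw [inv_eq_one_div, div_le_iff₀ (by positivity)]
      nlinarith
    have h3 : ‖cd n j‖ ≤ 10 := by
      unfold cd
      exact (norm_sub_le _ _).trans (by linarith)
    have h5 : (1 / 64 : ℝ) ≤ (‖vt j‖ ^ 3)⁻¹ := by
      rw [inv_eq_one_div]
      apply one_div_le_one_div_of_le (by positivity)
      calc ‖vt j‖ ^ 3 ≤ 4 ^ 3 := pow_le_pow_left₀ hv0.le h4.le 3
        _ = 64 := by norm_num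
    nlinarith

theorem summable_cd (n : ℕ) (hn : 1 ≤ n) : Summable (cd n) :=
  Summable.of_norm_bounded (summable_cube.mul_left _) (cd_le n hn)

theorem disc_tendsto : Tendsto disc atTop atTop := by
  refine tendsto_atTop_finset_of_monotone ?_ ?_
  · intro X Y h j hj
    rw [mem_disc] at hj ⊢
    exact hj.trans h
  · intro j
    exact ⟨‖vt j‖, by rw [mem_disc]⟩

theorem D_eq (n : ℕ) (X : ℝ) : D n (0, 0) X = ∑ j ∈ disc X, cd n j +
    ∫ z in ⋃ j ∈ disc X, cell j, G n z := by
  have hvol : ∀ j, volume (cell j) ≠ ⊤ := fun j => by rw [volume_cell]; exact ENNReal.one_ne_top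
  rw [integral_biUnion_finset (disc X) (fun j _ => measurableSet_cell j)
    (fun i _ j _ h => cell_disjoint i j h) (fun j _ => G_integrableOn n _ (hvol j)),
    ← Finset.sum_add_distrib]
  unfold D cd
  exact Finset.sum_congr rfl fun j _ => by rw [chi_zero]; ring

theorem G_disc (n : ℕ) (hn : 1 ≤ n) (X : ℝ) (hX : 2 ≤ X) :
    ‖∫ z in ⋃ j ∈ disc X, cell j, G n z‖ ≤ 4 * Real.pi * X * ((X - 1) ^ 2)⁻¹ := by
  set U : Set ℂ := ⋃ j ∈ disc X, cell j with hU
  have hUm : MeasurableSet U := Finset.measurableSet_biUnion _ fun j _ => measurableSet_cell j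
  have hmemU : ∀ z, z ∈ U ↔ ‖vt (fl (z - tau))‖ ≤ X := by
    intro z
    rw [hU, Set.mem_iUnion₂]
    constructor
    · rintro ⟨j, hj, hz⟩
      have : fl (z - tau) = j := hz
      rw [this]
      exact (mem_disc X j).1 hj
    · intro h
      exact ⟨fl (z - tau), (mem_disc X _).2 h, rfl⟩
  have hnear : ∀ z : ℂ, ‖z - vt (fl (z - tau))‖ ≤ 3 / 4 := fun z => cell_near _ z rfl
  have hUsub : U ⊆ ball 0 (X + 1) := by
    intro z hz
    rw [hmemU] at hz
    rw [mem_ball_zero_iff]
    calc ‖z‖ = ‖(z - vt (fl (z - tau))) + vt (fl (z - tau))‖ := by congr 1; ring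
      _ ≤ _ := norm_add_le _ _
      _ < X + 1 := by linarith [hnear z]
  have hfinU : volume U ≠ ⊤ := ((measure_mono hUsub).trans_lt measure_ball_lt_top).ne
  have hfinB : volume (ball (0 : ℂ) X) ≠ ⊤ := measure_ball_lt_top.ne
  have h0 := G_ball n hn X
  have e1 : ∫ z in U, G n z = ∫ z, (U.indicator (G n) z - (ball (0 : ℂ) X).indicator (G n) z) := by
    rw [integral_sub ((integrable_indicator_iff hUm).2 (G_integrableOn n _ hfinU))
      ((integrable_indicator_iff measurableSet_ball).2 (G_integrableOn n _ hfinB)),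
      integral_indicator hUm, integral_indicator measurableSet_ball, h0, sub_zero]
  rw [e1]
  set A : Set ℂ := ball 0 (X + 1) \ ball 0 (X - 1) with hA
  have hAm : MeasurableSet A := measurableSet_ball.diff measurableSet_ball
  have hbd : ∀ z, ‖U.indicator (G n) z - (ball (0 : ℂ) X).indicator (G n) z‖ ≤
      A.indicator (fun _ => ((X - 1) ^ 2)⁻¹) z := by
    intro z
    have hnn : 0 ≤ A.indicator (fun _ => ((X - 1) ^ 2)⁻¹) z :=
      Set.indicator_nonneg (fun _ _ => by positivity) z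
    have hzn := hnear z
    by_cases h1 : z ∈ U <;> by_cases h2 : z ∈ ball (0 : ℂ) X
    · rw [Set.indicator_of_mem h1, Set.indicator_of_mem h2, sub_self, norm_zero]
      exact hnn
    · rw [Set.indicator_of_mem h1, Set.indicator_of_notMem h2, sub_zero]
      rw [mem_ball_zero_iff, not_lt] at h2
      have hzA : z ∈ A := ⟨hUsub h1, by rw [mem_ball_zero_iff, not_lt]; linarith⟩
      rw [Set.indicator_of_mem hzA]
      exact norm_G_le' n z (X - 1) (by linarith) (by linarith)
    · rw [Set.indicator_of_notMem h1, Set.indicator_of_mem h2, zero_sub, norm_neg]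
      rw [mem_ball_zero_iff] at h2
      rw [hmemU, not_le] at h1
      have h3 : ‖vt (fl (z - tau))‖ ≤ ‖z‖ + ‖z - vt (fl (z - tau))‖ := by
        calc ‖vt (fl (z - tau))‖ = ‖z - (z - vt (fl (z - tau)))‖ := by congr 1; ring
          _ ≤ _ := norm_sub_le _ _
      have hzX : X - 1 ≤ ‖z‖ := by linarith
      have hzA : z ∈ A := ⟨by rw [mem_ball_zero_iff]; linarith, by
        rw [mem_ball_zero_iff, not_lt]; exact hzX⟩
      rw [Set.indicator_of_mem hzA]
      exact norm_G_le' n z (X - 1) (by linarith) hzX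
    · rw [Set.indicator_of_notMem h1, Set.indicator_of_notMem h2, sub_self, norm_zero]
      exact hnn
  have hfinA : volume A ≠ ⊤ := ((measure_mono Set.sdiff_subset).trans_lt measure_ball_lt_top).ne
  refine (norm_integral_le_of_norm_le ((integrable_indicator_iff hAm).2 (integrableOn_const hfinA))
    (Eventually.of_forall hbd)).trans (le_of_eq ?_)
  rw [integral_indicator hAm, setIntegral_const, smul_eq_mul]
  have hvolA : volume.real A = 4 * Real.pi * X := by
    have hsub : ball (0 : ℂ) (X - 1) ⊆ ball 0 (X + 1) := ball_subset_ball (by linarith)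
    have e := measureReal_sdiff (μ := volume) hsub measurableSet_ball measure_ball_lt_top.ne
    rw [hA, e]
    unfold Measure.real
    rw [vol_ball _ _ (by linarith), vol_ball _ _ (by linarith)]
    ring
  rw [hvolA]

theorem D_tendsto (n : ℕ) (hn : 1 ≤ n) : ∃ L : ℂ, Tendsto (D n (0, 0)) atTop (𝓝 L) := by
  refine ⟨∑' j, cd n j + 0, ?_⟩
  have h1 : Tendsto (fun X => ∑ j ∈ disc X, cd n j) atTop (𝓝 (∑' j, cd n j)) :=
    (summable_cd n hn).hasSum.comp disc_tendsto
  have h2 : Tendsto (fun X : ℝ => ∫ z in ⋃ j ∈ disc X, cell j, G n z) atTop (𝓝 0) := by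
    have h3 : Tendsto (fun X : ℝ => 16 * Real.pi * X⁻¹) atTop (𝓝 0) := by
      have := tendsto_inv_atTop_zero.const_mul (16 * Real.pi)
      rwa [mul_zero] at this
    refine squeeze_zero_norm' ?_ h3
    filter_upwards [eventually_ge_atTop 2] with X hX
    refine (G_disc n hn X hX).trans ?_
    have hX0 : 0 < X := by linarith
    have hpi := Real.pi_pos
    have h4 : ((X - 1) ^ 2)⁻¹ ≤ 4 * (X ^ 2)⁻¹ := by
      have h5 : X / 2 ≤ X - 1 := by linarith
      calc ((X - 1) ^ 2)⁻¹ ≤ ((X / 2) ^ 2)⁻¹ :=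
            inv_anti₀ (by positivity) (pow_le_pow_left₀ (by positivity) h5 2)
        _ = 4 * (X ^ 2)⁻¹ := by field_simp; norm_num
    calc 4 * Real.pi * X * ((X - 1) ^ 2)⁻¹ ≤ 4 * Real.pi * X * (4 * (X ^ 2)⁻¹) := by gcongr
      _ = 16 * Real.pi * X⁻¹ := by field_simp; norm_num
  refine (h1.add h2).congr fun X => ?_
  rw [D_eq]

end Pool.MP_75bf3e_an.HB
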