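import Pool.Agent.Lib_MP_75bf3e_hb.Conv

/-! # The sums over the primary Gaussian integers -/

set_option autoImplicit false

open MeasureTheory Metric Filter Topology

namespace Pool.MP_75bf3e_an.HB

open Pool.MP_75bf3e_an.BT

/-- The primary Gaussian integer `1 + (2 + 2 i) (m.1 + m.2 i)`. -/
noncomputable def prim (m : ℤ × ℤ) : ℂ := 1 + (2 + 2 * Complex.I) * ((m.1 : ℂ) + (m.2 : ℂ) * Complex.I)

/-- The sum of `(conj u / u) ^ n / |u| ^ 2`, `u = prim m`, over all `m` with `|u| ≤ X`, twisted by the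
additive character `e(θ.1 m.1 + θ.2 m.2)`. -/
noncomputable def primSum (n : ℕ) (θ : ℝ × ℝ) (X : ℝ) : ℂ :=
  ∑' m : ℤ × ℤ, if ‖prim m‖ ≤ X then
    (starRingEnd ℂ (prim m) / prim m) ^ n / ((‖prim m‖ ^ 2 : ℝ) : ℂ) *
      Complex.exp (2 * (Real.pi : ℂ) * Complex.I * ((θ.1 * m.1 + θ.2 * m.2 : ℝ) : ℂ)) else 0

theorem prim_eq (m : ℤ × ℤ) : prim m = (2 + 2 * Complex.I) * vt m := by
  unfold prim vt
  apply Complex.ext
  · simp [tau, pt]
    ring
  · simp [tau, pt]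
    ring

theorem norm_two : ‖(2 + 2 * Complex.I : ℂ)‖ ^ 2 = 8 := by
  rw [← Complex.normSq_eq_norm_sq, Complex.normSq_apply]
  simp
  norm_num

theorem norm_prim (m : ℤ × ℤ) : ‖prim m‖ ^ 2 = 8 * ‖vt m‖ ^ 2 := by
  rw [prim_eq, norm_mul, mul_pow, norm_two]

theorem norm_prim_le (m : ℤ × ℤ) (X : ℝ) (hX : 0 ≤ X) : ‖prim m‖ ≤ X ↔ ‖vt m‖ ≤ X / √8 := by
  have h8 : (0 : ℝ) < √8 := Real.sqrt_pos.2 (by norm_num)
  rw [le_div_iff₀ h8]
  have h1 : ‖prim m‖ = ‖vt m‖ * √8 := by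
    rw [← Real.sqrt_sq (norm_nonneg (prim m)), norm_prim, mul_comm,
      Real.sqrt_mul (by positivity), Real.sqrt_sq (norm_nonneg _)]
  rw [h1]

theorem conj_two : starRingEnd ℂ (2 + 2 * Complex.I) / (2 + 2 * Complex.I) = -Complex.I := by
  have h : (2 + 2 * Complex.I : ℂ) ≠ 0 := by
    intro h
    have := congrArg Complex.re h
    simp at this
  rw [div_eq_iff h]
  apply Complex.ext <;> simp

theorem F_prim (n : ℕ) (m : ℤ × ℤ) :
    (starRingEnd ℂ (prim m) / prim m) ^ n / ((‖prim m‖ ^ 2 : ℝ) : ℂ) =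
      (-Complex.I) ^ n / 8 * F n (vt m) := by
  rw [norm_prim]
  unfold F
  rw [prim_eq, map_mul, mul_div_mul_comm, conj_two, mul_pow]
  push_cast
  rw [mul_div_mul_comm]

theorem primSum_eq (n : ℕ) (θ : ℝ × ℝ) (X : ℝ) (hX : 0 ≤ X) :
    primSum n θ X = (-Complex.I) ^ n / 8 * D n θ (X / √8) := by
  unfold primSum D
  rw [tsum_eq_sum (s := disc (X / √8)), Finset.mul_sum]
  · refine Finset.sum_congr rfl fun m hm => ?_
    rw [if_pos ((norm_prim_le m X hX).2 ((mem_disc _ _).1 hm)), F_prim]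
    unfold chi
    ring
  · intro m hm
    rw [if_neg]
    intro h
    exact hm ((mem_disc _ _).2 ((norm_prim_le m X hX).1 h))

theorem primSum_neg (n : ℕ) (θ : ℝ × ℝ) (X : ℝ) (hX : X < 0) : primSum n θ X = 0 := by
  unfold primSum
  have : ∀ m : ℤ × ℤ, ¬ ‖prim m‖ ≤ X := fun m h => by
    have := norm_nonneg (prim m)
    linarith
  simp [this]

theorem norm_I_pow (n : ℕ) : ‖(-Complex.I) ^ n / 8‖ = 1 / 8 := by
  rw [norm_div, norm_pow, norm_neg, Complex.norm_I, one_pow, Complex.norm_ofNat]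

theorem primSum_bound (n : ℕ) (hn : 1 ≤ n) (A : ℝ) (hA : 0 ≤ A) (hI : Ineq n A) (θ : ℝ × ℝ) (X : ℝ) :
    ‖primSum n θ X‖ ≤ 33 * (240 * 13449 ^ 2) * (1 + A * √(1 + Real.log n)) := by
  have h0 : 0 ≤ 33 * (240 * 13449 ^ 2) * (1 + A * √(1 + Real.log n)) := by positivity
  rcases lt_or_ge X 0 with hX | hX
  · rw [primSum_neg n θ X hX, norm_zero]
    exact h0
  · rw [primSum_eq n θ X hX, norm_mul, norm_I_pow]
    have h1 := D_bound n hn A hA hI θ (X / √8)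
    have h2 := norm_nonneg (D n θ (X / √8))
    linarith

theorem primSum_tendsto (n : ℕ) (hn : 1 ≤ n) :
    ∃ L : ℂ, Tendsto (primSum n (0, 0)) atTop (𝓝 L) := by
  obtain ⟨L, hL⟩ := D_tendsto n hn
  refine ⟨(-Complex.I) ^ n / 8 * L, ?_⟩
  have h8 : (0 : ℝ) < √8 := Real.sqrt_pos.2 (by norm_num)
  have h1 : Tendsto (fun X : ℝ => X / √8) atTop atTop := tendsto_id.atTop_div_const h8
  have h2 : Tendsto (fun X : ℝ => (-Complex.I) ^ n / 8 * D n (0, 0) (X / √8)) atTop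
      (𝓝 ((-Complex.I) ^ n / 8 * L)) := (hL.comp h1).const_mul _
  refine h2.congr' ?_
  filter_upwards [eventually_ge_atTop 0] with X hX
  exact (primSum_eq n (0, 0) X hX).symm

/-- the discrete inequality, for sets given without names -/
theorem discrete' (n : ℕ) (hn : 1 ≤ n) (A : ℝ) (hA : 0 ≤ A) (hI : Ineq n A) (T S : Finset ℂ)
    (hd : Disjoint T S) (hsep : ∀ x ∈ T ∪ S, ∀ y ∈ T ∪ S, x ≠ y → 1 ≤ ‖x - y‖) (a : ℂ → ℂ) :
    ∑ t ∈ T, ‖∑ s ∈ S, (starRingEnd ℂ (t - s) / (t - s)) ^ n / ((‖t - s‖ ^ 2 : ℝ) : ℂ) * a s‖ ^ 2 ≤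
      (240 * 13449 ^ 2) ^ 2 * (1 + A ^ 2 * (1 + Real.log n)) * ∑ s ∈ S, ‖a s‖ ^ 2 := by
  refine discrete n hn A hA hI ⟨fun x hx y hy h => hsep x (Finset.mem_union_left _ hx) y
    (Finset.mem_union_left _ hy) h, fun x hx y hy h => hsep x (Finset.mem_union_right _ hx) y
    (Finset.mem_union_right _ hy) h, fun x hx y hy => hsep x (Finset.mem_union_left _ hx) y
    (Finset.mem_union_right _ hy) ?_⟩ a
  rintro rfl
  exact (Finset.disjoint_left.1 hd hx) hy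

end Pool.MP_75bf3e_an.HB
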