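import Pool.Agent.Lib_MP_75bf3e_hb.GW

/-! # The `A_2` constant of the weight of two finite separated sets -/

set_option autoImplicit false

open MeasureTheory Metric

namespace Pool.MP_75bf3e_an.HB

variable {T S : Finset ℂ}

open Classical in
/-- the points of `T` near a disc -/
noncomputable def Tn' (T : Finset ℂ) (c : ℂ) (R : ℝ) : Finset ℂ := T.filter fun a => ‖c - a‖ ≤ R

theorem card_Tn' (h : Cfg T S) (c : ℂ) (R : ℝ) (hR : 0 ≤ R) :
    ((Tn' T c R).card : ℝ) ≤ (2 * R + 1) ^ 2 := by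
  unfold Tn'
  refine packing _ (fun a ha b hb hne => ?_) c R hR fun a ha => ?_
  · exact h.tt a (Finset.mem_filter.1 ha).1 b (Finset.mem_filter.1 hb).1 hne
  · exact (Finset.mem_filter.1 ha).2

theorem W_le_sum (h : Cfg T S) (k : ℝ) (hk : 1 ≤ k) (c : ℂ) (r : ℝ) (z : ℂ) (hz : z ∈ ball c r) :
    W k T S z ≤ √k + ∑ a ∈ Tn' T c (r + 1 / 8), (√k)⁻¹ * hK k (z - a) := by
  have hk' : 1 ≤ √k := Real.one_le_sqrt.2 hk
  have hk0 : 0 < √k := by linarith
  have hnn : ∀ a ∈ Tn' T c (r + 1 / 8), 0 ≤ (√k)⁻¹ * hK k (z - a) := fun a _ =>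
    mul_nonneg (by positivity) (hK_nonneg _ _)
  have h5 := Finset.sum_nonneg hnn
  by_cases h1 : ∃ a ∈ T, ‖z - a‖ < 1 / 8
  · obtain ⟨a, ha, hza⟩ := h1
    rw [W_near h k a ha z hza]
    by_cases h0 : z = a
    · have : phi k a z = 1 := by
        unfold phi
        rw [if_neg]
        rintro ⟨h2, _⟩
        rw [h0, sub_self, norm_zero] at h2
        exact lt_irrefl _ h2
      rw [this]
      linarith
    · rw [phi_near k a z h0 hza]
      have hmem : a ∈ Tn' T c (r + 1 / 8) := by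
        unfold Tn'
        rw [Finset.mem_filter]
        refine ⟨ha, ?_⟩
        rw [mem_ball, dist_eq_norm] at hz
        calc ‖c - a‖ = ‖(z - a) - (z - c)‖ := by congr 1; ring
          _ ≤ _ := norm_sub_le _ _
          _ ≤ r + 1 / 8 := by linarith
      have h3 := Finset.single_le_sum hnn hmem
      have h4 : hK k (z - a) = ‖z - a‖ ^ (-2 + 1 / k) := by
        unfold hK
        rw [Set.indicator_of_mem (by rw [mem_ball_zero_iff]; exact hza)]
      rw [h4] at h3
      linarith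
  · push Not at h1
    by_cases h2 : ∃ a ∈ S, ‖z - a‖ < 1 / 8
    · obtain ⟨a, ha, hza⟩ := h2
      rw [W_near' h k a ha z hza]
      have := phi_inv_le k hk a z
      linarith
    · push Not at h2
      rw [W_else k z h1 h2]
      linarith

theorem W_ball (h : Cfg T S) (k : ℝ) (hk : 1 ≤ k) (c : ℂ) (r : ℝ) (hr : 0 < r) :
    IntegrableOn (W k T S) (ball c r) volume ∧
    ∫ z in ball c r, W k T S z ≤ √k * (Real.pi * r ^ 2 + 2 * Real.pi * (2 * (r + 1 / 8) + 1) ^ 2) := by
  have hk' : 1 ≤ √k := Real.one_le_sqrt.2 hk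
  have hk0 : 0 < √k := by linarith
  set G : ℂ → ℝ := fun z => ∑ a ∈ Tn' T c (r + 1 / 8), (√k)⁻¹ * hK k (z - a) with hG
  have hsi : ∀ a : ℂ, Integrable (fun z => hK k (z - a)) volume := fun m =>
    (hK_integrable k hk).comp_sub_right _
  have hGi : Integrable G volume := integrable_finsetSum _ fun m _ => (hsi m).const_mul _
  have hGint : ∫ z, G z ≤ √k * (2 * Real.pi * (2 * (r + 1 / 8) + 1) ^ 2) := by
    rw [hG, integral_finsetSum _ fun m _ => (hsi m).const_mul _]
    have h1 : ∀ a ∈ Tn' T c (r + 1 / 8), ∫ z, (√k)⁻¹ * hK k (z - a) ≤ √k * (2 * Real.pi) := by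
      intro a _
      rw [integral_const_mul, integral_sub_right_eq_self (hK k)]
      calc (√k)⁻¹ * ∫ z, hK k z ≤ (√k)⁻¹ * (2 * Real.pi * k) := by
            have := hK_integral k hk
            gcongr
        _ = (√k)⁻¹ * (2 * Real.pi * (√k * √k)) := by rw [Real.mul_self_sqrt (by linarith)]
        _ = √k * (2 * Real.pi) := by field_simp
    have h2 := Finset.sum_le_sum h1
    rw [Finset.sum_const, nsmul_eq_mul] at h2
    have h3 := card_Tn' h c (r + 1 / 8) (by linarith)
    have hpi := Real.pi_pos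
    calc _ ≤ _ := h2
      _ ≤ (2 * (r + 1 / 8) + 1) ^ 2 * (√k * (2 * Real.pi)) := by gcongr
      _ = _ := by ring
  have hGnn : ∀ z, 0 ≤ G z := fun z =>
    Finset.sum_nonneg fun m _ => mul_nonneg (by positivity) (hK_nonneg _ _)
  have hfin : volume (ball c r) ≠ ⊤ := measure_ball_lt_top.ne
  have hmaj : IntegrableOn (fun z => √k + G z) (ball c r) volume :=
    (integrableOn_const hfin).add hGi.integrableOn
  have hle : ∀ z ∈ ball c r, W k T S z ≤ √k + G z := fun z hz => W_le_sum h k hk c r z hz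
  have hWi : IntegrableOn (W k T S) (ball c r) volume := by
    refine Integrable.mono' hmaj (measurable_W k T S).aestronglyMeasurable ?_
    refine (ae_restrict_iff' measurableSet_ball).2 (Filter.Eventually.of_forall fun z hz => ?_)
    rw [Real.norm_of_nonneg (W_pos k hk T S z).le]
    exact hle z hz
  refine ⟨hWi, ?_⟩
  calc ∫ z in ball c r, W k T S z ≤ ∫ z in ball c r, (√k + G z) :=
        setIntegral_mono_on hWi hmaj measurableSet_ball hle
    _ = (∫ z in ball c r, √k) + ∫ z in ball c r, G z :=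
        integral_add (integrableOn_const hfin) hGi.integrableOn
    _ ≤ √k * (Real.pi * r ^ 2) + √k * (2 * Real.pi * (2 * (r + 1 / 8) + 1) ^ 2) := by
        rw [setIntegral_const, Measure.real, vol_ball c r hr.le, smul_eq_mul, mul_comm]
        have h1 : ∫ z in ball c r, G z ≤ ∫ z, G z :=
          setIntegral_le_integral hGi (Filter.Eventually.of_forall hGnn)
        linarith
    _ = _ := by ring

theorem A2_near (h : Cfg T S) (k : ℝ) (hk : 1 ≤ k) (c : ℂ) (r : ℝ) (hr : 0 < r)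
    (hr1 : r < 1 / 64) (a : ℂ) (ha : a ∈ T) (hc : ‖c - a‖ < 7 / 64) :
    ((Real.pi * r ^ 2)⁻¹ * ∫ z in ball c r, W k T S z) *
      ((Real.pi * r ^ 2)⁻¹ * ∫ z in ball c r, W k S T z) ≤ 18 * k := by
  have hk' : 1 ≤ √k := Real.one_le_sqrt.2 hk
  have hk0 : 0 < √k := by linarith
  have he : 0 < 1 / k := by positivity
  have he1 : 1 / k ≤ 1 := by rw [div_le_one (by linarith)]; exact hk
  have hnear : ∀ z ∈ ball c r, ‖z - a‖ < 1 / 8 := by
    intro z hz
    rw [mem_ball, dist_eq_norm] at hz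
    calc ‖z - a‖ = ‖(z - c) + (c - a)‖ := by ring_nf
      _ ≤ ‖z - c‖ + ‖c - a‖ := norm_add_le _ _
      _ < 1 / 8 := by linarith
  have hae : ∀ᵐ z ∂(volume.restrict (ball c r)), z ≠ a := by
    have h0 : ∀ᵐ z : ℂ ∂volume, z ≠ a := by
      rw [ae_iff]
      simp
    exact ae_restrict_of_ae h0
  have i1 : ∫ z in ball c r, W k T S z = (√k)⁻¹ * ∫ z in ball c r, ‖z - a‖ ^ (-2 + 1 / k) := by
    rw [← integral_const_mul]
    refine integral_congr_ae ?_
    filter_upwards [hae, ae_restrict_mem measurableSet_ball] with z hz hzb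
    rw [W_near h k a ha z (hnear z hzb), phi_near k a z hz (hnear z hzb)]
  have i2 : ∫ z in ball c r, W k S T z = √k * ∫ z in ball c r, ‖z - a‖ ^ (2 - 1 / k) := by
    rw [← integral_const_mul]
    refine integral_congr_ae ?_
    filter_upwards [hae, ae_restrict_mem measurableSet_ball] with z hz hzb
    rw [W_near' h.symm k a ha z (hnear z hzb), phi_inv_near k a z hz (hnear z hzb)]
  have tr : ∀ f : ℂ → ℝ, ∫ z in ball c r, f (z - a) = ∫ z in ball (c - a) r, f z := by
    intro f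
    rw [← integral_indicator measurableSet_ball, ← integral_indicator measurableSet_ball,
      ← integral_sub_right_eq_self ((ball (c - a) r).indicator f) a]
    refine integral_congr_ae (Filter.Eventually.of_forall fun z => ?_)
    by_cases hz : z ∈ ball c r
    · have hz' : z - a ∈ ball (c - a) r := by
        rw [mem_ball, dist_eq_norm] at hz ⊢
        rw [show z - a - (c - a) = z - c by ring]
        exact hz
      change (ball c r).indicator (fun z => f (z - a)) z = (ball (c - a) r).indicator f (z - a)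
      rw [Set.indicator_of_mem hz, Set.indicator_of_mem hz']
    · have hz' : z - a ∉ ball (c - a) r := by
        rw [mem_ball, dist_eq_norm] at hz ⊢
        rw [show z - a - (c - a) = z - c by ring]
        exact hz
      change (ball c r).indicator (fun z => f (z - a)) z = (ball (c - a) r).indicator f (z - a)
      rw [Set.indicator_of_notMem hz, Set.indicator_of_notMem hz']
  have hA := (pow_A2 (1 / k) he he1 (c - a) r hr).2.2
  rw [i1, i2, tr (fun z => ‖z‖ ^ (-2 + 1 / k)), tr (fun z => ‖z‖ ^ (2 - 1 / k))]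
  calc _ = ((Real.pi * r ^ 2)⁻¹ * ∫ z in ball (c - a) r, ‖z‖ ^ (-2 + 1 / k)) *
      ((Real.pi * r ^ 2)⁻¹ * ∫ z in ball (c - a) r, ‖z‖ ^ (2 - 1 / k)) := by
        field_simp
    _ ≤ 18 / (1 / k) := hA
    _ = 18 * k := by field_simp

theorem W_ave_large (h : Cfg T S) (k : ℝ) (hk : 1 ≤ k) (c : ℂ) (r : ℝ) (hr : 1 / 64 ≤ r) :
    (Real.pi * r ^ 2)⁻¹ * ∫ z in ball c r, W k T S z ≤ 13449 * √k := by
  have hk' : 1 ≤ √k := Real.one_le_sqrt.2 hk
  have hr0 : 0 < r := by linarith
  have hpi := Real.pi_pos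
  have h1 := (W_ball h k hk c r hr0).2
  have h2 : (2 * (r + 1 / 8) + 1) ^ 2 ≤ (82 * r) ^ 2 := by
    apply pow_le_pow_left₀ (by linarith)
    linarith
  calc (Real.pi * r ^ 2)⁻¹ * ∫ z in ball c r, W k T S z
      ≤ (Real.pi * r ^ 2)⁻¹ * (√k * (Real.pi * r ^ 2 + 2 * Real.pi * (82 * r) ^ 2)) := by
        have h3 : √k * (Real.pi * r ^ 2 + 2 * Real.pi * (2 * (r + 1 / 8) + 1) ^ 2) ≤
          √k * (Real.pi * r ^ 2 + 2 * Real.pi * (82 * r) ^ 2) := by gcongr
        exact mul_le_mul_of_nonneg_left (h1.trans h3) (by positivity)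
    _ = 13449 * √k := by field_simp; ring

theorem W_far (h : Cfg T S) (k : ℝ) (hk : 1 ≤ k) (z : ℂ) (hz : ∀ a ∈ T, 3 / 32 ≤ ‖z - a‖) :
    W k T S z ≤ 114 * √k := by
  have hk' : 1 ≤ √k := Real.one_le_sqrt.2 hk
  by_cases h1 : ∃ a ∈ T, ‖z - a‖ < 1 / 8
  · obtain ⟨a, ha, hza⟩ := h1
    rw [W_near h k a ha z hza]
    have := phi_le_far k hk a z (hz a ha)
    linarith
  · push Not at h1
    by_cases h2 : ∃ a ∈ S, ‖z - a‖ < 1 / 8
    · obtain ⟨a, ha, hza⟩ := h2
      rw [W_near' h k a ha z hza]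
      have := phi_inv_le k hk a z
      linarith
    · push Not at h2
      rw [W_else k z h1 h2]
      linarith

theorem W_ave_far (h : Cfg T S) (k : ℝ) (hk : 1 ≤ k) (c : ℂ) (r : ℝ) (hr : 0 < r) (hr1 : r < 1 / 64)
    (hc : ∀ a ∈ T, 7 / 64 ≤ ‖c - a‖) :
    (Real.pi * r ^ 2)⁻¹ * ∫ z in ball c r, W k T S z ≤ 114 * √k := by
  have hpi := Real.pi_pos
  have hfin : volume (ball c r) ≠ ⊤ := measure_ball_lt_top.ne
  have h1 : ∫ z in ball c r, W k T S z ≤ ∫ z in ball c r, 114 * √k := by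
    refine setIntegral_mono_on (W_ball h k hk c r hr).1 (integrableOn_const hfin)
      measurableSet_ball fun z hz => ?_
    refine W_far h k hk z fun a ha => ?_
    rw [mem_ball, dist_eq_norm] at hz
    have h2 : ‖c - a‖ ≤ ‖z - a‖ + ‖z - c‖ := by
      calc ‖c - a‖ = ‖(z - a) - (z - c)‖ := by congr 1; ring
        _ ≤ _ := norm_sub_le _ _
    linarith [hc a ha]
  rw [setIntegral_const, Measure.real, vol_ball c r hr.le, smul_eq_mul] at h1
  calc (Real.pi * r ^ 2)⁻¹ * ∫ z in ball c r, W k T S z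
      ≤ (Real.pi * r ^ 2)⁻¹ * (Real.pi * r ^ 2 * (114 * √k)) := by gcongr
    _ = 114 * √k := by field_simp

theorem W_int_nonneg (k : ℝ) (hk : 1 ≤ k) (T S : Finset ℂ) (c : ℂ) (r : ℝ) :
    0 ≤ (Real.pi * r ^ 2)⁻¹ * ∫ z in ball c r, W k T S z := by
  have hpi := Real.pi_pos
  exact mul_nonneg (by positivity) (setIntegral_nonneg measurableSet_ball fun z _ =>
    (W_pos k hk T S z).le)

/-- the `A_2` constant -/
theorem A2_main (h : Cfg T S) (k : ℝ) (hk : 1 ≤ k) (c : ℂ) (r : ℝ) (hr : 0 < r) :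
    ((Real.pi * r ^ 2)⁻¹ * ∫ z in ball c r, W k T S z) *
      ((Real.pi * r ^ 2)⁻¹ * ∫ z in ball c r, W k S T z) ≤ 13449 ^ 2 * k := by
  have hk0 : 0 ≤ √k := Real.sqrt_nonneg k
  have hkk : √k * √k = k := Real.mul_self_sqrt (by linarith)
  rcases le_or_gt (1 / 64) r with hr1 | hr1
  · calc _ ≤ (13449 * √k) * (13449 * √k) := mul_le_mul (W_ave_large h k hk c r hr1)
          (W_ave_large h.symm k hk c r hr1) (W_int_nonneg k hk S T c r) (by positivity)
      _ = 13449 ^ 2 * (√k * √k) := by ring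
      _ = _ := by rw [hkk]
  · by_cases h1 : ∃ a ∈ T, ‖c - a‖ < 7 / 64
    · obtain ⟨a, ha, hca⟩ := h1
      refine (A2_near h k hk c r hr hr1 a ha hca).trans ?_
      nlinarith
    · push Not at h1
      by_cases h2 : ∃ a ∈ S, ‖c - a‖ < 7 / 64
      · obtain ⟨a, ha, hca⟩ := h2
        rw [mul_comm]
        refine (A2_near h.symm k hk c r hr hr1 a ha hca).trans ?_
        nlinarith
      · push Not at h2
        calc _ ≤ (114 * √k) * (114 * √k) := mul_le_mul (W_ave_far h k hk c r hr hr1 h1)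
              (W_ave_far h.symm k hk c r hr hr1 h2) (W_int_nonneg k hk S T c r) (by positivity)
          _ = 114 ^ 2 * (√k * √k) := by ring
          _ ≤ _ := by rw [hkk]; nlinarith

theorem W_locInt (h : Cfg T S) (k : ℝ) (hk : 1 ≤ k) : LocallyIntegrable (W k T S) volume := by
  intro z
  exact ⟨ball z 1, ball_mem_nhds z one_pos, (W_ball h k hk z 1 one_pos).1⟩

end Pool.MP_75bf3e_an.HB
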