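import Pool.Agent.Lib_MP_75bf3e_hb.GA2
import Pool.Agent.Lib_MP_75bf3e.NKLip
import Pool.Agent.Lib_MP_75bf3e.Four2

/-! # The kernel -/

set_option autoImplicit false

open MeasureTheory Metric

namespace Pool.MP_75bf3e_an.HB

open Pool.MP_75bf3e_an.BT

/-- the kernel without the constant -/
noncomputable def F (n : ℕ) (v : ℂ) : ℂ := (starRingEnd ℂ v / v) ^ n / ((‖v‖ ^ 2 : ℝ) : ℂ)

theorem Kn_F (n : ℕ) (z : ℂ) : Kn n z = ((-1) ^ n * ((n : ℂ) / (Real.pi : ℂ))) * F n z := by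
  unfold Kn F
  ring

theorem norm_const (n : ℕ) : ‖((-1) ^ n * ((n : ℂ) / (Real.pi : ℂ)))‖ = n / Real.pi := by
  rw [norm_mul, norm_pow, norm_neg, norm_one, one_pow, one_mul, norm_div, Complex.norm_natCast,
    Complex.norm_real, Real.norm_of_nonneg Real.pi_pos.le]

theorem norm_F_le (n : ℕ) (v : ℂ) : ‖F n v‖ ≤ (‖v‖ ^ 2)⁻¹ := by
  unfold F
  rw [norm_div, norm_pow, Complex.norm_real, Real.norm_of_nonneg (by positivity : 0 ≤ ‖v‖ ^ 2),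
    div_eq_mul_inv]
  have h1 : ‖starRingEnd ℂ v / v‖ ^ n ≤ 1 := pow_le_one₀ (norm_nonneg _) (nkl_E_norm v)
  calc _ ≤ 1 * (‖v‖ ^ 2)⁻¹ := mul_le_mul_of_nonneg_right h1 (by positivity)
    _ = _ := one_mul _

theorem F_lip (n : ℕ) (hn : 1 ≤ n) (v δ : ℂ) (hv : v ≠ 0) (hδ : ‖δ‖ ≤ ‖v‖ / 2) :
    ‖F n (v + δ) - F n v‖ ≤ 14 * n * ‖δ‖ * (‖v‖ ^ 3)⁻¹ := by
  have hn1 : (1 : ℝ) ≤ n := by exact_mod_cast hn
  have hv0 : 0 < ‖v‖ := norm_pos_iff.2 hv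
  have hv' : ‖v‖ / 2 ≤ ‖v + δ‖ := by
    have h1 : ‖v‖ ≤ ‖v + δ‖ + ‖δ‖ := by
      calc ‖v‖ = ‖(v + δ) - δ‖ := by ring_nf
        _ ≤ _ := norm_sub_le _ _
    linarith
  have hv'0 : 0 < ‖v + δ‖ := by linarith
  have hne : v + δ ≠ 0 := norm_pos_iff.1 hv'0
  set a : ℝ := ‖v‖⁻¹ with ha
  set b : ℝ := ‖v + δ‖⁻¹ with hb
  have ha0 : 0 < a := inv_pos.2 hv0
  have hb0 : 0 < b := inv_pos.2 hv'0
  have hba : b ≤ 2 * a := by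
    rw [hb, ha]
    calc ‖v + δ‖⁻¹ ≤ (‖v‖ / 2)⁻¹ := inv_anti₀ (by positivity) hv'
      _ = 2 * ‖v‖⁻¹ := by field_simp
  set E : ℂ := starRingEnd ℂ v / v with hE
  set E' : ℂ := starRingEnd ℂ (v + δ) / (v + δ) with hE'
  have hE1 : ‖E' ^ n - E ^ n‖ ≤ n * (2 * ‖δ‖ * a) := by
    refine (nkl_pow_sub E' E (nkl_E_norm _) (nkl_E_norm _) n).trans ?_
    refine mul_le_mul_of_nonneg_left ?_ (Nat.cast_nonneg n)
    rw [norm_sub_rev]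
    refine (nkl_E_lip hv hne).trans (le_of_eq ?_)
    rw [show v - (v + δ) = -δ by ring, norm_neg, ha, div_eq_mul_inv]
  have hab : |b ^ 2 - a ^ 2| ≤ 6 * ‖δ‖ * a ^ 3 := by
    have e1 : b ^ 2 - a ^ 2 = (‖v‖ - ‖v + δ‖) * (a * b ^ 2 + a ^ 2 * b) := by
      have h1 : ‖v‖ * a = 1 := mul_inv_cancel₀ hv0.ne'
      have h2 : ‖v + δ‖ * b = 1 := mul_inv_cancel₀ hv'0.ne'
      calc b ^ 2 - a ^ 2 = b ^ 2 * 1 + a * b * 1 - (a ^ 2 * 1 + a * b * 1) := by ring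
        _ = b ^ 2 * (‖v‖ * a) + a * b * (‖v‖ * a) - (a ^ 2 * (‖v + δ‖ * b) + a * b * (‖v + δ‖ * b)) := by
            rw [h1, h2]
        _ = _ := by ring
    have h3 : |‖v‖ - ‖v + δ‖| ≤ ‖δ‖ := by
      refine (abs_norm_sub_norm_le _ _).trans (le_of_eq ?_)
      rw [show v - (v + δ) = -δ by ring, norm_neg]
    have h4 : 0 ≤ a * b ^ 2 + a ^ 2 * b := by positivity
    have h5 : a * b ^ 2 + a ^ 2 * b ≤ 6 * a ^ 3 := by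
      have h6 : b ^ 2 ≤ (2 * a) ^ 2 := pow_le_pow_left₀ hb0.le hba 2
      calc a * b ^ 2 + a ^ 2 * b ≤ a * (2 * a) ^ 2 + a ^ 2 * (2 * a) := by gcongr
        _ = 6 * a ^ 3 := by ring
    rw [e1, abs_mul, abs_of_nonneg h4]
    calc |‖v‖ - ‖v + δ‖| * (a * b ^ 2 + a ^ 2 * b) ≤ ‖δ‖ * (6 * a ^ 3) :=
          mul_le_mul h3 h5 h4 (norm_nonneg _)
      _ = _ := by ring
  have hF : ∀ u : ℂ, F n u = (starRingEnd ℂ u / u) ^ n * (((‖u‖⁻¹) ^ 2 : ℝ) : ℂ) := by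
    intro u
    unfold F
    rw [div_eq_mul_inv]
    push_cast
    rw [inv_pow]
  have hdec : F n (v + δ) - F n v = (E' ^ n - E ^ n) * ((b ^ 2 : ℝ) : ℂ) +
      E ^ n * ((b ^ 2 - a ^ 2 : ℝ) : ℂ) := by
    rw [hF (v + δ), hF v]
    change E' ^ n * ((b ^ 2 : ℝ) : ℂ) - E ^ n * ((a ^ 2 : ℝ) : ℂ) = _
    push_cast
    ring
  rw [hdec]
  have hEn : ‖E ^ n‖ ≤ 1 := by rw [norm_pow]; exact pow_le_one₀ (norm_nonneg _) (nkl_E_norm v)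
  calc _ ≤ ‖(E' ^ n - E ^ n) * ((b ^ 2 : ℝ) : ℂ)‖ + ‖E ^ n * ((b ^ 2 - a ^ 2 : ℝ) : ℂ)‖ :=
        norm_add_le _ _
    _ = ‖E' ^ n - E ^ n‖ * b ^ 2 + ‖E ^ n‖ * |b ^ 2 - a ^ 2| := by
        rw [norm_mul, norm_mul, Complex.norm_real, Complex.norm_real,
          Real.norm_of_nonneg (by positivity : 0 ≤ b ^ 2), Real.norm_eq_abs]
    _ ≤ (n * (2 * ‖δ‖ * a)) * (2 * a) ^ 2 + 1 * (6 * ‖δ‖ * a ^ 3) := by
        have h6 : b ^ 2 ≤ (2 * a) ^ 2 := pow_le_pow_left₀ hb0.le hba 2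
        refine add_le_add (mul_le_mul hE1 h6 (by positivity) (by positivity))
          (mul_le_mul hEn hab (abs_nonneg _) zero_le_one)
    _ = (8 * n + 6) * (‖δ‖ * a ^ 3) := by ring
    _ ≤ (14 * n) * (‖δ‖ * a ^ 3) := by
        have : 0 ≤ ‖δ‖ * a ^ 3 := by positivity
        nlinarith
    _ = 14 * n * ‖δ‖ * (‖v‖ ^ 3)⁻¹ := by rw [ha, inv_pow]; ring

end Pool.MP_75bf3e_an.HB
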