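import Pool.Agent.Lib_MP_75bf3e_hb.GTest

/-! # The discrete inequality -/

set_option autoImplicit false

open MeasureTheory Metric

namespace Pool.MP_75bf3e_an.HB

open Pool.MP_75bf3e_an.BT

variable {T S : Finset ℂ}

/-- upper bound for the weighted norm of the test function -/
theorem ft_upper (h : Cfg T S) (k : ℝ) (hk : 1 ≤ k) (g : ℂ → ℝ) (r : ℝ) (hr16 : r ≤ 1 / 16)
    (hg : ContDiff ℝ ((⊤ : ℕ∞) : WithTop ℕ∞) g) (hsupp : ∀ y, r ≤ ‖y‖ → g y = 0)
    (hnn : ∀ y, 0 ≤ g y) (hgw : ∀ y, y ≠ 0 → g y * (√k * ‖y‖ ^ (2 - 1 / k)) ≤ 1) (a : ℂ → ℂ) :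
    ∫⁻ z : ℂ, ‖ft g S a z‖ₑ ^ (2 : ℝ) * ENNReal.ofReal (W k T S z) ≤
      ENNReal.ofReal ((∑ s ∈ S, ‖a s‖ ^ 2) * ∫ y, g y) := by
  have hgi : Integrable g volume := hg.continuous.integrable_of_hasCompactSupport (g_cs hsupp)
  have hgi' : ∀ s : ℂ, Integrable (fun z => ‖a s‖ ^ 2 * g (z - s)) volume := fun s =>
    (hgi.comp_sub_right s).const_mul _
  have hpt : ∀ᵐ z : ℂ ∂volume, ∀ s ∈ S, z ≠ s := by
    rw [Filter.eventually_all_finset]
    intro s _
    rw [ae_iff]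
    simp
  have hle : ∀ᵐ z : ℂ ∂volume, ‖ft g S a z‖ₑ ^ (2 : ℝ) * ENNReal.ofReal (W k T S z) ≤
      ENNReal.ofReal (∑ s ∈ S, ‖a s‖ ^ 2 * g (z - s)) := by
    filter_upwards [hpt] with z hz
    by_cases hex : ∃ s ∈ S, g (z - s) ≠ 0
    · obtain ⟨s, hs, hgs⟩ := hex
      have hzs : ‖z - s‖ < r := by
        by_contra hcon
        exact hgs (hsupp _ (not_lt.1 hcon))
      have huniq : ∀ s' ∈ S, s' ≠ s → g (z - s') = 0 := by
        intro s' hs' hne
        refine hsupp _ ?_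
        have h1 := h.ss s hs s' hs' hne.symm
        have h2 : s - s' = (z - s') - (z - s) := by ring
        rw [h2] at h1
        have h3 := h1.trans (norm_sub_le _ _)
        linarith
      have e1 : ft g S a z = a s * ((g (z - s) : ℝ) : ℂ) := by
        unfold ft
        rw [Finset.sum_eq_single_of_mem s hs]
        · rfl
        · intro s' hs' hne
          unfold fs
          rw [huniq s' hs' hne, Complex.ofReal_zero, mul_zero]
      have e2 : ∑ s' ∈ S, ‖a s'‖ ^ 2 * g (z - s') = ‖a s‖ ^ 2 * g (z - s) :=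
        Finset.sum_eq_single_of_mem s hs fun s' hs' hne => by rw [huniq s' hs' hne, mul_zero]
      rw [e1, e2]
      have h0 := hnn (z - s)
      have e3 : ‖a s * ((g (z - s) : ℝ) : ℂ)‖ₑ ^ (2 : ℝ) =
          ENNReal.ofReal ((‖a s‖ * g (z - s)) ^ 2) := by
        rw [← ofReal_norm_eq_enorm, norm_mul, Complex.norm_real, Real.norm_of_nonneg h0,
          ENNReal.ofReal_rpow_of_nonneg (by positivity) (by norm_num), Real.rpow_two]
      rw [e3, ← ENNReal.ofReal_mul (by positivity)]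
      refine ENNReal.ofReal_le_ofReal ?_
      have hne : z - s ≠ 0 := sub_ne_zero.2 (hz s hs)
      rw [W_near' h k s hs z (by linarith), phi_inv_near k s z (hz s hs) (by linarith)]
      calc (‖a s‖ * g (z - s)) ^ 2 * (√k * ‖z - s‖ ^ (2 - 1 / k))
          = ‖a s‖ ^ 2 * (g (z - s) * (g (z - s) * (√k * ‖z - s‖ ^ (2 - 1 / k)))) := by ring
        _ ≤ ‖a s‖ ^ 2 * (g (z - s) * 1) := by
            have := hgw _ hne
            gcongr
        _ = ‖a s‖ ^ 2 * g (z - s) := by ring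
    · push Not at hex
      have e1 : ft g S a z = 0 := by
        unfold ft
        refine Finset.sum_eq_zero fun s hs => ?_
        unfold fs
        rw [hex s hs, Complex.ofReal_zero, mul_zero]
      rw [e1]
      simp
  refine (lintegral_mono_ae hle).trans (le_of_eq ?_)
  rw [← ofReal_integral_eq_lintegral_ofReal (integrable_finsetSum _ fun s _ => hgi' s)
    (Filter.Eventually.of_forall fun z => Finset.sum_nonneg fun s _ =>
      mul_nonneg (by positivity) (hnn _))]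
  congr 1
  rw [integral_finsetSum _ fun s _ => hgi' s, Finset.sum_mul]
  refine Finset.sum_congr rfl fun s _ => ?_
  rw [integral_const_mul, integral_sub_right_eq_self g]

/-- the mass of the weight near a target -/
theorem W_mass (h : Cfg T S) (k : ℝ) (hk : 1 ≤ k) (t : ℂ) (ht : t ∈ T) (r : ℝ) (hr0 : 0 < r)
    (hr : r ≤ 1 / 16) (hre : 1 / 48 ≤ r ^ (1 / k)) :
    ENNReal.ofReal (√k / 8) ≤ ∫⁻ z in ball t r, ENNReal.ofReal (W k T S z) := by
  have hk0 : 0 < k := by linarith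
  have hsk : 0 < √k := Real.sqrt_pos.2 hk0
  have he : 0 < 1 / k := by positivity
  have hpi := Real.pi_gt_three
  rw [← ofReal_integral_eq_lintegral_ofReal (W_ball h k hk t r hr0).1
    (Filter.Eventually.of_forall fun z => (W_pos k hk T S z).le)]
  refine ENNReal.ofReal_le_ofReal ?_
  have hae : ∀ᵐ z ∂(volume.restrict (ball t r)), z ≠ t := by
    have h0 : ∀ᵐ z : ℂ ∂volume, z ≠ t := by
      rw [ae_iff]
      simp
    exact ae_restrict_of_ae h0
  have i1 : ∫ z in ball t r, W k T S z = (√k)⁻¹ * ∫ z in ball t r, ‖z - t‖ ^ (-2 + 1 / k) := by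
    rw [← integral_const_mul]
    refine integral_congr_ae ?_
    filter_upwards [hae, ae_restrict_mem measurableSet_ball] with z hz hzb
    rw [mem_ball, dist_eq_norm] at hzb
    rw [W_near h k t ht z (by linarith), phi_near k t z hz (by linarith)]
  have i2 : ∫ z in ball t r, ‖z - t‖ ^ (-2 + 1 / k) =
      ∫ z in ball (0 : ℂ) r, ‖z‖ ^ (-2 + 1 / k) := by
    rw [← integral_indicator measurableSet_ball, ← integral_indicator measurableSet_ball,
      ← integral_sub_right_eq_self ((ball (0 : ℂ) r).indicator fun z => ‖z‖ ^ (-2 + 1 / k)) t]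
    refine integral_congr_ae (Filter.Eventually.of_forall fun z => ?_)
    by_cases hz : z ∈ ball t r
    · have hz' : z - t ∈ ball (0 : ℂ) r := by
        rw [mem_ball, dist_eq_norm] at hz
        rw [mem_ball_zero_iff]
        exact hz
      change (ball t r).indicator _ z = (ball (0 : ℂ) r).indicator _ (z - t)
      rw [Set.indicator_of_mem hz, Set.indicator_of_mem hz']
    · have hz' : z - t ∉ ball (0 : ℂ) r := by
        rw [mem_ball, dist_eq_norm] at hz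
        rw [mem_ball_zero_iff]
        exact hz
      change (ball t r).indicator _ z = (ball (0 : ℂ) r).indicator _ (z - t)
      rw [Set.indicator_of_notMem hz, Set.indicator_of_notMem hz']
  rw [i1, i2, (pow_ball (-2 + 1 / k) (by linarith) r hr0).2, show -2 + 1 / k + 2 = 1 / k by ring]
  have hkk : √k * √k = k := Real.mul_self_sqrt hk0.le
  have h1 : (√k)⁻¹ * (2 * Real.pi * (r ^ (1 / k) / (1 / k))) = √k * (2 * Real.pi * r ^ (1 / k)) := by
    have h2 : (√k)⁻¹ * k = √k := by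
      nth_rewrite 2 [← hkk]
      field_simp
    calc _ = ((√k)⁻¹ * k) * (2 * Real.pi * r ^ (1 / k)) := by field_simp
      _ = _ := by rw [h2]
  rw [h1, div_eq_mul_inv]
  refine mul_le_mul_of_nonneg_left ?_ hsk.le
  nlinarith

/-- lower bound for the weighted norm of the transform -/
theorem Tn_norm_lower (h : Cfg T S) (k : ℝ) (hk : 1 ≤ k) (u : ℂ → ℂ) (r : ℝ) (hr0 : 0 < r)
    (hr : r ≤ 1 / 16) (hre : 1 / 48 ≤ r ^ (1 / k)) (B : ℂ → ℝ) (hB : ∀ t, 0 ≤ B t)
    (hu : ∀ t ∈ T, ∀ z, ‖z - t‖ < r → B t ≤ ‖u z‖) :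
    ENNReal.ofReal ((∑ t ∈ T, B t ^ 2) * (√k / 8)) ≤
      ∫⁻ z : ℂ, ‖u z‖ₑ ^ (2 : ℝ) * ENNReal.ofReal (W k T S z) := by
  have hdisj : (↑T : Set ℂ).PairwiseDisjoint fun t => ball t r := by
    intro t ht t' ht' hne
    refine ball_disjoint_ball ?_
    rw [dist_eq_norm]
    have := h.tt t ht t' ht' hne
    linarith
  have h1 : ∑ t ∈ T, ∫⁻ z in ball t r, ‖u z‖ₑ ^ (2 : ℝ) * ENNReal.ofReal (W k T S z) ≤
      ∫⁻ z : ℂ, ‖u z‖ₑ ^ (2 : ℝ) * ENNReal.ofReal (W k T S z) := by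
    rw [← lintegral_biUnion_finset hdisj fun m _ => measurableSet_ball]
    exact setLIntegral_le_lintegral _ _
  refine le_trans ?_ h1
  have h2 : ∀ t ∈ T, ENNReal.ofReal (B t ^ 2 * (√k / 8)) ≤
      ∫⁻ z in ball t r, ‖u z‖ₑ ^ (2 : ℝ) * ENNReal.ofReal (W k T S z) := by
    intro t ht
    calc ENNReal.ofReal (B t ^ 2 * (√k / 8)) = ENNReal.ofReal (B t ^ 2) * ENNReal.ofReal (√k / 8) :=
          ENNReal.ofReal_mul (by positivity)
      _ ≤ ENNReal.ofReal (B t ^ 2) * ∫⁻ z in ball t r, ENNReal.ofReal (W k T S z) := by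
          gcongr
          exact W_mass h k hk t ht r hr0 hr hre
      _ = ∫⁻ z in ball t r, ENNReal.ofReal (B t ^ 2) * ENNReal.ofReal (W k T S z) :=
          (lintegral_const_mul _ (measurable_W k T S).ennreal_ofReal).symm
      _ ≤ _ := by
          refine setLIntegral_mono' measurableSet_ball fun z hz => ?_
          rw [mem_ball, dist_eq_norm] at hz
          gcongr
          rw [← ofReal_norm_eq_enorm, ENNReal.ofReal_rpow_of_nonneg (norm_nonneg _) (by norm_num),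
            Real.rpow_two]
          exact ENNReal.ofReal_le_ofReal (pow_le_pow_left₀ (hB t) (hu t ht z hz) 2)
  refine le_trans (le_of_eq ?_) (Finset.sum_le_sum h2)
  rw [Finset.sum_mul, ENNReal.ofReal_sum_of_nonneg fun t _ => by positivity]

/-- the weighted inequality of the problem for `p = 2`, the exponent `n` and the constant `A` -/
def Ineq (n : ℕ) (A : ℝ) : Prop :=
  ∀ w : ℂ → ℝ, (∀ z, 0 < w z) →
    MeasureTheory.LocallyIntegrable w MeasureTheory.volume →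
    MeasureTheory.LocallyIntegrable (fun z => w z ^ (-(1 / ((2 : ℝ) - 1)))) MeasureTheory.volume →
    ∀ K : ℝ,
      (∀ c : ℂ, ∀ r : ℝ, 0 < r →
        ((MeasureTheory.volume (Metric.ball c r)).toReal⁻¹ *
            ∫ z in Metric.ball c r, w z) *
          ((MeasureTheory.volume (Metric.ball c r)).toReal⁻¹ *
            ∫ z in Metric.ball c r, w z ^ (-(1 / ((2 : ℝ) - 1)))) ^ ((2 : ℝ) - 1) ≤ K) →
      ∀ f : ℂ → ℂ, ContDiff ℝ ((⊤ : ℕ∞) : WithTop ℕ∞) f → HasCompactSupport f →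
        (∫⁻ z : ℂ, ‖Tn n f z‖ₑ ^ (2 : ℝ) * ENNReal.ofReal (w z)) ≤
          ENNReal.ofReal ((A * |((n : ℤ) : ℝ)| * K ^ (max 1 (1 / ((2 : ℝ) - 1)))) ^ (2 : ℝ)) *
            ∫⁻ z : ℂ, ‖f z‖ₑ ^ (2 : ℝ) * ENNReal.ofReal (w z)

theorem discrete (n : ℕ) (hn : 1 ≤ n) (A : ℝ) (hA : 0 ≤ A) (hI : Ineq n A) (h : Cfg T S)
    (a : ℂ → ℂ) :
    ∑ t ∈ T, ‖∑ s ∈ S, F n (t - s) * a s‖ ^ 2 ≤
      (240 * 13449 ^ 2) ^ 2 * (1 + A ^ 2 * (1 + Real.log n)) * ∑ s ∈ S, ‖a s‖ ^ 2 := by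
  have hn1 : (1 : ℝ) ≤ n := by exact_mod_cast hn
  have hn0 : (0 : ℝ) < n := by linarith
  have hlog : 0 ≤ Real.log n := Real.log_nonneg hn1
  set k : ℝ := 1 + Real.log n with hk
  have hk1 : 1 ≤ k := by linarith
  have hk0 : 0 < k := by linarith
  have hsk : 0 < √k := Real.sqrt_pos.2 hk0
  have hkk : √k * √k = k := Real.mul_self_sqrt hk0.le
  have hpi := Real.pi_pos
  have hpi3 := Real.pi_gt_three
  have hpi4 := Real.pi_lt_four
  -- the test function
  obtain ⟨g, hg, hgnn, hgsupp, hgw, hgM⟩ := exists_bump n hn k hk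
  set r : ℝ := 1 / (16 * (n : ℝ)) with hr
  have hr0 : 0 < r := by positivity
  have hr16 : r ≤ 1 / 16 := by
    rw [hr]
    apply one_div_le_one_div_of_le (by norm_num)
    linarith
  have he : 0 < 1 / k := by positivity
  have he1 : 1 / k ≤ 1 := by rw [div_le_one hk0]; exact hk1
  have hre : 1 / 48 ≤ r ^ (1 / k) := by
    have e1 : r = (1 / 16) * (n : ℝ)⁻¹ := by rw [hr]; field_simp
    rw [e1, Real.mul_rpow (by norm_num) (by positivity)]
    have e2 : (1 / 16 : ℝ) ≤ (1 / 16) ^ (1 / k) := by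
      calc (1 / 16 : ℝ) = (1 / 16) ^ (1 : ℝ) := (Real.rpow_one _).symm
        _ ≤ (1 / 16) ^ (1 / k) := Real.rpow_le_rpow_of_exponent_ge (by norm_num) (by norm_num) he1
    have e3 : Real.exp (-1) ≤ ((n : ℝ)⁻¹) ^ (1 / k) := by
      rw [Real.inv_rpow hn0.le, ← Real.rpow_neg hn0.le, Real.rpow_def_of_pos hn0]
      refine Real.exp_le_exp.2 ?_
      have e4 : Real.log n * (1 / k) ≤ 1 := by
        rw [mul_one_div, div_le_one hk0]
        linarith
      linarith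
    have hexp2 : (1 / 3 : ℝ) ≤ Real.exp (-1) := by
      rw [Real.exp_neg, one_div]
      have := Real.exp_one_lt_d9
      exact inv_anti₀ (Real.exp_pos _) (by linarith)
    calc (1 / 48 : ℝ) = (1 / 16) * (1 / 3) := by norm_num
      _ ≤ (1 / 16) ^ (1 / k) * ((n : ℝ)⁻¹) ^ (1 / k) :=
        mul_le_mul e2 (hexp2.trans e3) (by norm_num) (by positivity)
  set M : ℝ := ∫ y, g y with hM
  have hMp : 0 < M := lt_of_lt_of_le (by positivity) hgM
  set b : ℂ → ℝ := fun t => ‖∑ s ∈ S, F n (t - s) * a s‖ with hb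
  set e : ℂ → ℝ := fun t => 2 * ∑ s ∈ S, (‖t - s‖ ^ 3)⁻¹ * ‖a s‖ with he'
  set β : ℂ → ℝ := fun t => max (b t - e t) 0 with hβ
  have hβ0 : ∀ t, 0 ≤ β t := fun t => le_max_right _ _
  set B : ℂ → ℝ := fun t => n / Real.pi * M * β t with hB
  have hB0 : ∀ t, 0 ≤ B t := fun t => mul_nonneg (by positivity) (hβ0 t)
  have low := Tn_norm_lower h k hk1 (Tn n (ft g S a)) r hr0 hr16 hre B hB0
    (fun t ht z hz => by
      have h1 := Tn_lower h hg hgsupp hgnn n hn hr a t ht z hz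
      simp only [hB, hβ]
      rcases le_total (b t - e t) 0 with h2 | h2
      · rw [max_eq_right h2, mul_zero]
        exact norm_nonneg _
      · rw [max_eq_left h2]
        exact h1)
  have upp := ft_upper h k hk1 g r hr16 hg hgsupp hgnn hgw a
  have hinv' : (fun z => W k T S z ^ (-(1 / ((2 : ℝ) - 1)))) = W k S T := by
    funext z
    rw [show -(1 / ((2 : ℝ) - 1)) = -1 by norm_num, Real.rpow_neg_one]
    exact W_inv k T S z
  have mid := hI (W k T S) (W_pos k hk1 T S) (W_locInt h k hk1)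
    (by rw [hinv']; exact W_locInt h.symm k hk1) (13449 ^ 2 * k)
    (by
      intro c r' hr'
      rw [hinv', show (2 : ℝ) - 1 = 1 by norm_num, Real.rpow_one, vol_ball c r' hr'.le]
      exact A2_main h k hk1 c r' hr') (ft g S a) (ft_smooth hg S a) (ft_cs hgsupp S a)
  have chain := low.trans (mid.trans (mul_le_mul_right upp _))
  rw [← ENNReal.ofReal_mul (by positivity)] at chain
  have hQ : 0 ≤ (A * |((n : ℤ) : ℝ)| * (13449 ^ 2 * k) ^ (max 1 (1 / ((2 : ℝ) - 1)))) ^ (2 : ℝ) *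
      ((∑ s ∈ S, ‖a s‖ ^ 2) * M) := by positivity
  rw [ENNReal.ofReal_le_ofReal_iff hQ] at chain
  have e5 : max 1 (1 / ((2 : ℝ) - 1)) = 1 := by norm_num
  rw [e5, Real.rpow_one, Real.rpow_two] at chain
  have e6 : |((n : ℤ) : ℝ)| = n := by
    rw [Int.cast_natCast, abs_of_nonneg hn0.le]
  rw [e6] at chain
  -- numerical conclusion
  set Qa : ℝ := ∑ s ∈ S, ‖a s‖ ^ 2 with hQa
  have hQa0 : 0 ≤ Qa := Finset.sum_nonneg fun _ _ => by positivity
  set Qβ : ℝ := ∑ t ∈ T, β t ^ 2 with hQβ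
  have hQβ0 : 0 ≤ Qβ := Finset.sum_nonneg fun _ _ => by positivity
  have e7 : ∑ t ∈ T, B t ^ 2 = (n / Real.pi * M) ^ 2 * Qβ := by
    rw [hQβ, Finset.mul_sum]
    exact Finset.sum_congr rfl fun t _ => by simp only [hB]; ring
  rw [e7] at chain
  have c3 : (n ^ 2 * M / Real.pi ^ 2) * (M * Qβ * (√k / 8)) ≤
      (n ^ 2 * M / Real.pi ^ 2) * (Real.pi ^ 2 * (A * (13449 ^ 2 * k)) ^ 2 * Qa) := by
    calc (n ^ 2 * M / Real.pi ^ 2) * (M * Qβ * (√k / 8)) =
          (n / Real.pi * M) ^ 2 * Qβ * (√k / 8) := by field_simp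
      _ ≤ _ := chain
      _ = _ := by field_simp
  have c4 : M * Qβ * (√k / 8) ≤ Real.pi ^ 2 * (A * (13449 ^ 2 * k)) ^ 2 * Qa :=
    le_of_mul_le_mul_left c3 (by positivity)
  have c5 : (√k * √k) * (Qβ / 800) ≤ (√k * √k) * (16 * (A * 13449 ^ 2) ^ 2 * k * Qa) := by
    calc (√k * √k) * (Qβ / 800) = √k / 100 * Qβ * (√k / 8) := by ring
      _ ≤ M * Qβ * (√k / 8) := by gcongr
      _ ≤ _ := c4
      _ ≤ 4 ^ 2 * (A * (13449 ^ 2 * k)) ^ 2 * Qa := by gcongr
      _ = k * (16 * (A * 13449 ^ 2) ^ 2 * k * Qa) := by ring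
      _ = _ := by rw [hkk]
  have c6 : Qβ / 800 ≤ 16 * (A * 13449 ^ 2) ^ 2 * k * Qa :=
    le_of_mul_le_mul_left c5 (by positivity)
  have hsch : ∑ t ∈ T, e t ^ 2 ≤ 4 * (81 ^ 2 * Qa) := by
    have h1 := schur h a
    calc ∑ t ∈ T, e t ^ 2 = 4 * ∑ t ∈ T, (∑ s ∈ S, (‖t - s‖ ^ 3)⁻¹ * ‖a s‖) ^ 2 := by
          rw [Finset.mul_sum]
          exact Finset.sum_congr rfl fun t _ => by simp only [he']; ring
      _ ≤ _ := by linarith
  have he0 : ∀ t, 0 ≤ e t := fun t =>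
    mul_nonneg (by norm_num) (Finset.sum_nonneg fun _ _ => by positivity)
  have c7 : ∑ t ∈ T, b t ^ 2 ≤ 2 * Qβ + 2 * ∑ t ∈ T, e t ^ 2 := by
    rw [hQβ, Finset.mul_sum, Finset.mul_sum, ← Finset.sum_add_distrib]
    refine Finset.sum_le_sum fun t _ => ?_
    have h1 : b t ≤ β t + e t := by
      have : b t - e t ≤ β t := le_max_left _ _
      linarith
    have h2 : 0 ≤ b t := norm_nonneg _
    nlinarith [sq_nonneg (β t - e t), hβ0 t, he0 t]
  have hAk : 0 ≤ A ^ 2 * k * Qa := by positivity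
  calc ∑ t ∈ T, ‖∑ s ∈ S, F n (t - s) * a s‖ ^ 2 = ∑ t ∈ T, b t ^ 2 := rfl
    _ ≤ 2 * Qβ + 2 * ∑ t ∈ T, e t ^ 2 := c7
    _ ≤ 2 * (800 * (16 * (A * 13449 ^ 2) ^ 2 * k * Qa)) + 2 * (4 * (81 ^ 2 * Qa)) := by linarith
    _ = 25600 * 13449 ^ 4 * (A ^ 2 * k * Qa) + 52488 * Qa := by ring
    _ ≤ (240 * 13449 ^ 2) ^ 2 * (A ^ 2 * k * Qa) + (240 * 13449 ^ 2) ^ 2 * Qa := by
        refine add_le_add (mul_le_mul_of_nonneg_right (by norm_num) hAk)
          (mul_le_mul_of_nonneg_right (by norm_num) hQa0)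
    _ = _ := by ring

end Pool.MP_75bf3e_an.HB
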