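import Pool.Agent.Lib_MP_75bf3e_hb.GKer
import Pool.Agent.Lib_MP_75bf3e_hb.Bump

/-! # The transform of the test function -/

set_option autoImplicit false

open MeasureTheory Metric

namespace Pool.MP_75bf3e_an.HB

open Pool.MP_75bf3e_an.BT

variable {T S : Finset ℂ}

section test

variable (g : ℂ → ℝ)

/-- one bump -/
noncomputable def fs (s : ℂ) (z : ℂ) : ℂ := ((g (z - s) : ℝ) : ℂ)

/-- the test function -/
noncomputable def ft (S : Finset ℂ) (a : ℂ → ℂ) (z : ℂ) : ℂ := ∑ s ∈ S, a s * fs g s z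

variable {g} {r : ℝ}

theorem g_cs (hsupp : ∀ y, r ≤ ‖y‖ → g y = 0) : HasCompactSupport g := by
  refine HasCompactSupport.intro (isCompact_closedBall (0 : ℂ) r) fun y hy => ?_
  rw [mem_closedBall, dist_zero_right, not_le] at hy
  exact hsupp y hy.le

theorem fs_smooth (hg : ContDiff ℝ ((⊤ : ℕ∞) : WithTop ℕ∞) g) (s : ℂ) :
    ContDiff ℝ ((⊤ : ℕ∞) : WithTop ℕ∞) (fs g s) := by
  have h1 : ContDiff ℝ ((⊤ : ℕ∞) : WithTop ℕ∞) (fun z : ℂ => g (z - s)) :=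
    hg.comp (contDiff_id.sub contDiff_const)
  exact Complex.ofRealCLM.contDiff.comp h1

theorem fs_cs (hsupp : ∀ y, r ≤ ‖y‖ → g y = 0) (s : ℂ) : HasCompactSupport (fs g s) := by
  refine HasCompactSupport.intro (isCompact_closedBall s r) fun y hy => ?_
  rw [mem_closedBall, dist_eq_norm, not_le] at hy
  unfold fs
  rw [hsupp _ hy.le, Complex.ofReal_zero]

theorem ft_smooth (hg : ContDiff ℝ ((⊤ : ℕ∞) : WithTop ℕ∞) g) (S : Finset ℂ) (a : ℂ → ℂ) :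
    ContDiff ℝ ((⊤ : ℕ∞) : WithTop ℕ∞) (ft g S a) :=
  ContDiff.sum fun s _ => contDiff_const.mul (fs_smooth hg s)

theorem ft_cs (hsupp : ∀ y, r ≤ ‖y‖ → g y = 0) (S : Finset ℂ) (a : ℂ → ℂ) :
    HasCompactSupport (ft g S a) := by
  have h : ∀ B : Finset ℂ, HasCompactSupport (fun z => ∑ s ∈ B, a s * fs g s z) := by
    intro B
    induction B using Finset.cons_induction with
    | empty =>
      simp only [Finset.sum_empty]
      exact HasCompactSupport.zero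
    | cons b B hb ih =>
      simp only [Finset.sum_cons]
      exact (HasCompactSupport.mul_left (fs_cs hsupp b)).add ih
  exact h _

/-- the transform at a target point, as a sum -/
theorem Tn_ft (h : Cfg T S) (hg : ContDiff ℝ ((⊤ : ℕ∞) : WithTop ℕ∞) g)
    (hsupp : ∀ y, r ≤ ‖y‖ → g y = 0)
    (n : ℕ) (hn : 1 ≤ n) (a : ℂ → ℂ) (t : ℂ) (ht : t ∈ T) (z : ℂ) (hr : r ≤ 1 / 16)
    (hz : ‖z - t‖ < r) :
    Tn n (ft g S a) z = ∑ s ∈ S, a s * ∫ y, Kn n (z - s - y) * ((g y : ℝ) : ℂ) ∧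
    ∀ s ∈ S, Integrable (fun y => Kn n (z - s - y) * ((g y : ℝ) : ℂ)) volume := by
  have h0 : ∀ s ∈ S, fs g s z = 0 := by
    intro s hs
    have h1 := h.ts t ht s hs
    have h2 : ‖t - s‖ ≤ ‖z - s‖ + ‖z - t‖ := by
      calc ‖t - s‖ = ‖(z - s) - (z - t)‖ := by congr 1; ring
        _ ≤ _ := norm_sub_le _ _
    unfold fs
    rw [hsupp _ (by linarith), Complex.ofReal_zero]
  have h0' : ft g S a z = 0 := Finset.sum_eq_zero fun s hs => by rw [h0 s hs, mul_zero]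
  have hfd : ∀ s ∈ S, ∀ ζ, fdiff (fs g s) z ζ = ((g (z - s - ζ) : ℝ) : ℂ) := by
    intro s hs ζ
    unfold fdiff
    rw [h0 s hs, ite_self, sub_zero]
    unfold fs
    rw [show z - ζ - s = z - s - ζ by ring]
  have hint : ∀ s ∈ S, Integrable (fun ζ => Kn n ζ * ((g (z - s - ζ) : ℝ) : ℂ)) volume := by
    intro s hs
    have h1 := integrable_Kn_fdiff n hn (fs g s) (fs_smooth hg s) (fs_cs hsupp s) z
    refine h1.congr (Filter.Eventually.of_forall fun ζ => ?_)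
    change Kn n ζ * fdiff (fs g s) z ζ = _
    rw [hfd s hs]
  refine ⟨?_, ?_⟩
  · rw [Tn_eq n hn (ft g S a) (ft_smooth hg S a) (ft_cs hsupp S a) z]
    have h1 : ∀ ζ, Kn n ζ * fdiff (ft g S a) z ζ =
        ∑ s ∈ S, a s * (Kn n ζ * ((g (z - s - ζ) : ℝ) : ℂ)) := by
      intro ζ
      have h2 : fdiff (ft g S a) z ζ = ∑ s ∈ S, a s * ((g (z - s - ζ) : ℝ) : ℂ) := by
        unfold fdiff
        rw [h0', ite_self, sub_zero]
        unfold ft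
        refine Finset.sum_congr rfl fun s _ => ?_
        unfold fs
        rw [show z - ζ - s = z - s - ζ by ring]
      rw [h2, Finset.mul_sum]
      exact Finset.sum_congr rfl fun s _ => by ring
    simp_rw [h1]
    rw [integral_finsetSum _ fun s hs => (hint s hs).const_mul _]
    refine Finset.sum_congr rfl fun s hs => ?_
    rw [integral_const_mul, ← integral_sub_left_eq_self
      (fun ζ => Kn n ζ * ((g (z - s - ζ) : ℝ) : ℂ)) volume (z - s)]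
    congr 1
    refine integral_congr_ae (Filter.Eventually.of_forall fun y => ?_)
    change Kn n (z - s - y) * ((g (z - s - (z - s - y)) : ℝ) : ℂ) = _
    rw [show z - s - (z - s - y) = y by ring]
  · intro s hs
    have h1 := (hint s hs).comp_sub_left (z - s)
    refine h1.congr (Filter.Eventually.of_forall fun y => ?_)
    change Kn n (z - s - y) * ((g (z - s - (z - s - y)) : ℝ) : ℂ) = _
    rw [show z - s - (z - s - y) = y by ring]

/-- each source contributes the kernel at the centres, up to an error -/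
theorem one_source (h : Cfg T S) (hg : ContDiff ℝ ((⊤ : ℕ∞) : WithTop ℕ∞) g)
    (hsupp : ∀ y, r ≤ ‖y‖ → g y = 0)
    (hnn : ∀ y, 0 ≤ g y) (n : ℕ) (hn : 1 ≤ n) (t : ℂ) (ht : t ∈ T) (s : ℂ) (hs : s ∈ S) (z : ℂ)
    (hr : r = 1 / (16 * (n : ℝ))) (hz : ‖z - t‖ < r) :
    ‖(∫ y, Kn n (z - s - y) * ((g y : ℝ) : ℂ)) - Kn n (t - s) * ((∫ y, g y : ℝ) : ℂ)‖ ≤
      n / Real.pi * (2 * (‖t - s‖ ^ 3)⁻¹) * ∫ y, g y := by
  have hn1 : (1 : ℝ) ≤ n := by exact_mod_cast hn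
  have hn0 : (0 : ℝ) < n := by linarith
  have hr16 : r ≤ 1 / 16 := by
    rw [hr]
    apply one_div_le_one_div_of_le (by norm_num)
    linarith
  have hgi : Integrable g volume := hg.continuous.integrable_of_hasCompactSupport (g_cs hsupp)
  have hi1 := (Tn_ft h hg hsupp n hn 0 t ht z hr16 hz).2 s hs
  have hi2 : Integrable (fun y => Kn n (t - s) * ((g y : ℝ) : ℂ)) volume :=
    (hgi.ofReal (𝕜 := ℂ)).const_mul _
  have e1 : Kn n (t - s) * ((∫ y, g y : ℝ) : ℂ) = ∫ y, Kn n (t - s) * ((g y : ℝ) : ℂ) := by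
    rw [integral_const_mul]
    congr 1
    exact integral_ofReal.symm
  rw [e1, ← integral_sub hi1 hi2, ← integral_const_mul]
  refine norm_integral_le_of_norm_le (hgi.const_mul _) (Filter.Eventually.of_forall fun y => ?_)
  rcases le_or_gt r ‖y‖ with hy | hy
  · rw [hsupp y hy]
    simp
  · set v := t - s with hv
    have hvn : 1 ≤ ‖v‖ := h.ts t ht s hs
    have hv0 : v ≠ 0 := norm_pos_iff.1 (by linarith)
    set δ : ℂ := (z - t) - y with hδ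
    have hδn : ‖δ‖ ≤ 2 * r := (norm_sub_le _ _).trans (by linarith)
    have e2 : z - s - y = v + δ := by
      rw [hv, hδ]
      ring
    rw [e2, Kn_F, Kn_F, ← sub_mul, ← mul_sub, norm_mul, norm_mul, norm_const, Complex.norm_real,
      Real.norm_of_nonneg (hnn y)]
    have h1 := F_lip n hn v δ hv0 (by linarith)
    have h2 : 14 * (n : ℝ) * ‖δ‖ * (‖v‖ ^ 3)⁻¹ ≤ 2 * (‖v‖ ^ 3)⁻¹ := by
      have h3 : 14 * (n : ℝ) * ‖δ‖ ≤ 2 := by
        calc 14 * (n : ℝ) * ‖δ‖ ≤ 14 * (n : ℝ) * (2 * r) := by gcongr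
          _ = 28 / 16 := by rw [hr]; field_simp; norm_num
          _ ≤ 2 := by norm_num
      gcongr
    have h4 := h1.trans h2
    have hpi := Real.pi_pos
    have := hnn y
    gcongr

/-- lower bound for the transform at the targets -/
theorem Tn_lower (h : Cfg T S) (hg : ContDiff ℝ ((⊤ : ℕ∞) : WithTop ℕ∞) g)
    (hsupp : ∀ y, r ≤ ‖y‖ → g y = 0) (hnn : ∀ y, 0 ≤ g y) (n : ℕ) (hn : 1 ≤ n)
    (hr : r = 1 / (16 * (n : ℝ))) (a : ℂ → ℂ) (t : ℂ) (ht : t ∈ T) (z : ℂ) (hz : ‖z - t‖ < r) :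
    n / Real.pi * (∫ y, g y) * (‖∑ s ∈ S, F n (t - s) * a s‖ - 2 * ∑ s ∈ S, (‖t - s‖ ^ 3)⁻¹ * ‖a s‖) ≤
      ‖Tn n (ft g S a) z‖ := by
  have hn1 : (1 : ℝ) ≤ n := by exact_mod_cast hn
  have hr16 : r ≤ 1 / 16 := by
    rw [hr]
    apply one_div_le_one_div_of_le (by norm_num)
    linarith
  have hM : 0 ≤ ∫ y, g y := integral_nonneg hnn
  have hpi := Real.pi_pos
  rw [(Tn_ft h hg hsupp n hn a t ht z hr16 hz).1]
  set M : ℝ := ∫ y, g y with hMdef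
  set b : ℂ := ∑ s ∈ S, a s * (Kn n (t - s) * ((M : ℝ) : ℂ)) with hb
  set c : ℂ := ∑ s ∈ S, a s * ∫ y, Kn n (z - s - y) * ((g y : ℝ) : ℂ) with hc
  have h1 : ‖c - b‖ ≤ n / Real.pi * M * (2 * ∑ s ∈ S, (‖t - s‖ ^ 3)⁻¹ * ‖a s‖) := by
    rw [hb, hc, ← Finset.sum_sub_distrib]
    have h2 : ∀ s ∈ S, ‖a s * (∫ y, Kn n (z - s - y) * ((g y : ℝ) : ℂ)) -
        a s * (Kn n (t - s) * ((M : ℝ) : ℂ))‖ ≤
        n / Real.pi * M * (2 * ((‖t - s‖ ^ 3)⁻¹ * ‖a s‖)) := by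
      intro s hs
      rw [← mul_sub, norm_mul]
      have h3 := one_source h hg hsupp hnn n hn t ht s hs z hr hz
      calc _ ≤ ‖a s‖ * (n / Real.pi * (2 * (‖t - s‖ ^ 3)⁻¹) * M) :=
            mul_le_mul_of_nonneg_left h3 (norm_nonneg _)
        _ = _ := by ring
    refine (norm_sum_le_of_le _ h2).trans (le_of_eq ?_)
    rw [← Finset.mul_sum, ← Finset.mul_sum]
  have h3 : ‖b‖ = n / Real.pi * M * ‖∑ s ∈ S, F n (t - s) * a s‖ := by
    have h4 : b = ((-1) ^ n * ((n : ℂ) / (Real.pi : ℂ))) * (∑ s ∈ S, F n (t - s) * a s) *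
        ((M : ℝ) : ℂ) := by
      rw [hb, Finset.mul_sum, Finset.sum_mul]
      refine Finset.sum_congr rfl fun s _ => ?_
      rw [Kn_F]
      ring
    rw [h4, norm_mul, norm_mul, norm_const, Complex.norm_real, Real.norm_of_nonneg hM]
    ring
  have h5 : ‖b‖ ≤ ‖c‖ + ‖c - b‖ := by
    calc ‖b‖ = ‖c - (c - b)‖ := by congr 1; ring
      _ ≤ _ := norm_sub_le _ _
  calc n / Real.pi * M * (‖∑ s ∈ S, F n (t - s) * a s‖ - 2 * ∑ s ∈ S, (‖t - s‖ ^ 3)⁻¹ * ‖a s‖) =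
      ‖b‖ - n / Real.pi * M * (2 * ∑ s ∈ S, (‖t - s‖ ^ 3)⁻¹ * ‖a s‖) := by rw [h3]; ring
    _ ≤ ‖c‖ := by linarith

end test

/-- the sums of the error terms -/
theorem schur (h : Cfg T S) (a : ℂ → ℂ) :
    ∑ t ∈ T, (∑ s ∈ S, (‖t - s‖ ^ 3)⁻¹ * ‖a s‖) ^ 2 ≤ 81 ^ 2 * ∑ s ∈ S, ‖a s‖ ^ 2 := by
  have h1 : ∀ t ∈ T, (∑ s ∈ S, (‖t - s‖ ^ 3)⁻¹ * ‖a s‖) ^ 2 ≤
      81 * ∑ s ∈ S, (‖t - s‖ ^ 3)⁻¹ * ‖a s‖ ^ 2 := by
    intro t ht
    have h2 := Finset.sum_mul_sq_le_sq_mul_sq S (fun s => √((‖t - s‖ ^ 3)⁻¹))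
      (fun s => √((‖t - s‖ ^ 3)⁻¹) * ‖a s‖)
    have e1 : ∀ s, √((‖t - s‖ ^ 3)⁻¹) * (√((‖t - s‖ ^ 3)⁻¹) * ‖a s‖) = (‖t - s‖ ^ 3)⁻¹ * ‖a s‖ := by
      intro s
      rw [← mul_assoc, Real.mul_self_sqrt (by positivity)]
    have e2 : ∀ s, √((‖t - s‖ ^ 3)⁻¹) ^ 2 = (‖t - s‖ ^ 3)⁻¹ := fun s =>
      Real.sq_sqrt (by positivity)
    have e3 : ∀ s, (√((‖t - s‖ ^ 3)⁻¹) * ‖a s‖) ^ 2 = (‖t - s‖ ^ 3)⁻¹ * ‖a s‖ ^ 2 := fun s => by
      rw [mul_pow, e2]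
    simp only [e1, e2, e3] at h2
    refine h2.trans (mul_le_mul_of_nonneg_right ?_ (Finset.sum_nonneg fun _ _ => by positivity))
    exact cube_sum S h.ss t fun s hs => h.ts t ht s hs
  refine (Finset.sum_le_sum h1).trans ?_
  rw [← Finset.mul_sum, Finset.sum_comm]
  have h3 : ∀ s ∈ S, ∑ t ∈ T, (‖t - s‖ ^ 3)⁻¹ * ‖a s‖ ^ 2 ≤ 81 * ‖a s‖ ^ 2 := by
    intro s hs
    rw [← Finset.sum_mul]
    refine mul_le_mul_of_nonneg_right ?_ (by positivity)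
    have h4 := cube_sum T h.tt s fun t ht => h.symm.ts s hs t ht
    refine le_trans (le_of_eq ?_) h4
    exact Finset.sum_congr rfl fun t _ => by rw [norm_sub_rev]
  calc 81 * ∑ s ∈ S, ∑ t ∈ T, (‖t - s‖ ^ 3)⁻¹ * ‖a s‖ ^ 2 ≤ 81 * ∑ s ∈ S, 81 * ‖a s‖ ^ 2 :=
        mul_le_mul_of_nonneg_left (Finset.sum_le_sum h3) (by norm_num)
    _ = _ := by rw [← Finset.mul_sum]; ring

end Pool.MP_75bf3e_an.HB
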