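import Pool.Agent.Lib_MP_75bf3e_hb.Pow

/-! # The weight of two finite separated sets -/

set_option autoImplicit false

open MeasureTheory Metric

namespace Pool.MP_75bf3e_an.HB

/-- the points of `T ∪ S` have mutual distances at least `1` -/
structure Cfg (T S : Finset ℂ) : Prop where
  tt : ∀ a ∈ T, ∀ b ∈ T, a ≠ b → 1 ≤ ‖a - b‖
  ss : ∀ a ∈ S, ∀ b ∈ S, a ≠ b → 1 ≤ ‖a - b‖
  ts : ∀ a ∈ T, ∀ b ∈ S, 1 ≤ ‖a - b‖

theorem Cfg.symm {T S : Finset ℂ} (h : Cfg T S) : Cfg S T :=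
  ⟨h.ss, h.tt, fun a ha b hb => by rw [norm_sub_rev]; exact h.ts b hb a ha⟩

open Classical in
/-- the factor of a point -/
noncomputable def phi (k : ℝ) (a z : ℂ) : ℝ :=
  if 0 < ‖z - a‖ ∧ ‖z - a‖ < 1 / 8 then (√k)⁻¹ * ‖z - a‖ ^ (-2 + 1 / k) else 1

theorem phi_pos (k : ℝ) (hk : 1 ≤ k) (a z : ℂ) : 0 < phi k a z := by
  have hk' : 0 < √k := Real.sqrt_pos.2 (by linarith)
  unfold phi
  split_ifs with h1
  · exact mul_pos (inv_pos.2 hk') (Real.rpow_pos_of_pos h1.1 _)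
  · exact one_pos

theorem measurable_phi (k : ℝ) (a : ℂ) : Measurable (phi k a) := by
  have h1 : Measurable (fun z => ‖z - a‖) := measurable_norm.comp (measurable_id.sub_const a)
  unfold phi
  exact Measurable.ite ((measurableSet_lt measurable_const h1).inter
    (measurableSet_lt h1 measurable_const)) ((h1.pow_const _).const_mul _) measurable_const

theorem phi_far (k : ℝ) (a z : ℂ) (h : 1 / 8 ≤ ‖z - a‖) : phi k a z = 1 := by
  unfold phi
  rw [if_neg]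
  intro h1
  linarith [h1.2]

theorem phi_near (k : ℝ) (a z : ℂ) (h0 : z ≠ a) (h : ‖z - a‖ < 1 / 8) :
    phi k a z = (√k)⁻¹ * ‖z - a‖ ^ (-2 + 1 / k) := by
  unfold phi
  rw [if_pos ⟨norm_pos_iff.2 (sub_ne_zero.2 h0), h⟩]

theorem phi_inv_near (k : ℝ) (a z : ℂ) (h0 : z ≠ a) (h : ‖z - a‖ < 1 / 8) :
    (phi k a z)⁻¹ = √k * ‖z - a‖ ^ (2 - 1 / k) := by
  rw [phi_near k a z h0 h, mul_inv, inv_inv, ← Real.rpow_neg (norm_nonneg _)]
  congr 2
  ring

/-- the inverse is at most `√k` -/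
theorem phi_inv_le (k : ℝ) (hk : 1 ≤ k) (a z : ℂ) : (phi k a z)⁻¹ ≤ √k := by
  have hk' : 1 ≤ √k := Real.one_le_sqrt.2 hk
  have hk0 : 0 < √k := by linarith
  have he1 : 1 / k ≤ 1 := by rw [div_le_one (by linarith)]; exact hk
  by_cases h : z ≠ a ∧ ‖z - a‖ < 1 / 8
  · rw [phi_inv_near k a z h.1 h.2]
    have h3 : ‖z - a‖ ^ (2 - 1 / k) ≤ 1 :=
      Real.rpow_le_one (norm_nonneg _) (by linarith [h.2]) (by linarith)
    calc √k * ‖z - a‖ ^ (2 - 1 / k) ≤ √k * 1 := by gcongr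
      _ = √k := mul_one _
  · have : phi k a z = 1 := by
      unfold phi
      rw [if_neg]
      intro h1
      exact h ⟨fun h2 => by rw [h2, sub_self, norm_zero] at h1; exact lt_irrefl _ h1.1, h1.2⟩
    rw [this, inv_one]
    exact hk'

/-- bound for the factor at distance at least `3/32` -/
theorem phi_le_far (k : ℝ) (hk : 1 ≤ k) (a z : ℂ) (hz : 3 / 32 ≤ ‖z - a‖) : phi k a z ≤ 114 := by
  have hk' : 1 ≤ √k := Real.one_le_sqrt.2 hk
  have he : 0 ≤ 1 / k := by positivity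
  by_cases h : ‖z - a‖ < 1 / 8
  · have h0 : 0 < ‖z - a‖ := by linarith
    rw [phi_near k a z (sub_ne_zero.1 (norm_pos_iff.1 h0)) h]
    have h3 : ‖z - a‖ ^ (-2 + 1 / k) ≤ ‖z - a‖ ^ (-2 : ℝ) :=
      Real.rpow_le_rpow_of_exponent_ge h0 (by linarith) (by linarith)
    have h4 : ‖z - a‖ ^ (-2 : ℝ) ≤ (3 / 32 : ℝ) ^ (-2 : ℝ) :=
      Real.rpow_le_rpow_of_nonpos (by norm_num) hz (by norm_num)
    have h5 : (3 / 32 : ℝ) ^ (-2 : ℝ) ≤ 114 := by
      rw [show (-2 : ℝ) = ((-2 : ℤ) : ℝ) by norm_num, Real.rpow_intCast]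
      norm_num
    have h6 : (√k)⁻¹ ≤ 1 := inv_le_one_of_one_le₀ hk'
    calc (√k)⁻¹ * ‖z - a‖ ^ (-2 + 1 / k) ≤ 1 * 114 := by
          apply mul_le_mul h6 (h3.trans (h4.trans h5)) (by positivity) zero_le_one
      _ = 114 := one_mul _
  · rw [phi_far k a z (not_lt.1 h)]
    norm_num

/-- the weight -/
noncomputable def W (k : ℝ) (T S : Finset ℂ) (z : ℂ) : ℝ :=
  (∏ t ∈ T, phi k t z) * ∏ s ∈ S, (phi k s z)⁻¹

theorem W_pos (k : ℝ) (hk : 1 ≤ k) (T S : Finset ℂ) (z : ℂ) : 0 < W k T S z :=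
  mul_pos (Finset.prod_pos fun _ _ => phi_pos k hk _ _)
    (Finset.prod_pos fun _ _ => inv_pos.2 (phi_pos k hk _ _))

theorem W_inv (k : ℝ) (T S : Finset ℂ) (z : ℂ) : (W k T S z)⁻¹ = W k S T z := by
  unfold W
  rw [mul_inv, ← Finset.prod_inv_distrib, ← Finset.prod_inv_distrib, mul_comm]
  congr 1
  exact Finset.prod_congr rfl fun _ _ => inv_inv _

theorem measurable_W (k : ℝ) (T S : Finset ℂ) : Measurable (W k T S) :=
  (Finset.measurable_prod _ fun _ _ => measurable_phi k _).mul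
    (Finset.measurable_prod _ fun _ _ => (measurable_phi k _).inv)

variable {T S : Finset ℂ}

theorem W_near (h : Cfg T S) (k : ℝ) (a : ℂ) (ha : a ∈ T) (z : ℂ) (hz : ‖z - a‖ < 1 / 8) :
    W k T S z = phi k a z := by
  have far : ∀ b, 1 ≤ ‖a - b‖ → phi k b z = 1 := by
    intro b hb
    refine phi_far k b z ?_
    have h1 : ‖a - b‖ ≤ ‖z - b‖ + ‖z - a‖ := by
      calc ‖a - b‖ = ‖(z - b) - (z - a)‖ := by congr 1; ring
        _ ≤ _ := norm_sub_le _ _
    linarith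
  unfold W
  rw [Finset.prod_eq_single_of_mem a ha fun b hb hne => far b (h.tt a ha b hb hne.symm),
    Finset.prod_eq_one fun b hb => by rw [far b (h.ts a ha b hb), inv_one], mul_one]

theorem W_near' (h : Cfg T S) (k : ℝ) (a : ℂ) (ha : a ∈ S) (z : ℂ) (hz : ‖z - a‖ < 1 / 8) :
    W k T S z = (phi k a z)⁻¹ := by
  rw [← W_inv, W_near h.symm k a ha z hz]

theorem W_else (k : ℝ) (z : ℂ) (hT : ∀ a ∈ T, 1 / 8 ≤ ‖z - a‖) (hS : ∀ a ∈ S, 1 / 8 ≤ ‖z - a‖) :
    W k T S z = 1 := by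
  unfold W
  rw [Finset.prod_eq_one fun a ha => phi_far k a z (hT a ha),
    Finset.prod_eq_one fun a ha => by rw [phi_far k a z (hS a ha), inv_one], mul_one]

/-- the singularity -/
noncomputable def hK (k : ℝ) (y : ℂ) : ℝ := (ball (0 : ℂ) (1 / 8)).indicator (fun y => ‖y‖ ^ (-2 + 1 / k)) y

theorem hK_nonneg (k : ℝ) (y : ℂ) : 0 ≤ hK k y := by
  unfold hK
  refine Set.indicator_nonneg (fun y _ => ?_) y
  positivity

theorem hK_integrable (k : ℝ) (hk : 1 ≤ k) : Integrable (hK k) volume := by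
  have he : 0 < 1 / k := by positivity
  unfold hK
  rw [integrable_indicator_iff measurableSet_ball]
  exact (pow_ball (-2 + 1 / k) (by linarith) _ (by norm_num)).1

theorem hK_integral (k : ℝ) (hk : 1 ≤ k) : ∫ y, hK k y ≤ 2 * Real.pi * k := by
  have he : 0 < 1 / k := by positivity
  unfold hK
  rw [integral_indicator measurableSet_ball, (pow_ball (-2 + 1 / k) (by linarith) _ (by norm_num)).2]
  rw [show -2 + 1 / k + 2 = 1 / k by ring]
  have h1 : ((1 : ℝ) / 8) ^ (1 / k) ≤ 1 := Real.rpow_le_one (by norm_num) (by norm_num) he.le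
  have h2 : ((1 : ℝ) / 8) ^ (1 / k) / (1 / k) ≤ k := by
    rw [div_le_iff₀ he]
    calc ((1 : ℝ) / 8) ^ (1 / k) ≤ 1 := h1
      _ = k * (1 / k) := by field_simp
  have := Real.pi_pos
  gcongr

/-! ### packing -/

/-- the number of points of a separated set in a disc -/
theorem packing (P : Finset ℂ) (hP : ∀ a ∈ P, ∀ b ∈ P, a ≠ b → 1 ≤ ‖a - b‖) (c : ℂ) (R : ℝ)
    (hR : 0 ≤ R) (hPR : ∀ a ∈ P, ‖c - a‖ ≤ R) : (P.card : ℝ) ≤ (2 * R + 1) ^ 2 := by
  have hpi := Real.pi_pos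
  have hd : (↑P : Set ℂ).PairwiseDisjoint fun a => ball a (1 / 2) := by
    intro a ha b hb hne
    refine ball_disjoint_ball ?_
    rw [dist_eq_norm]
    have := hP a ha b hb hne
    linarith
  have h1 : (volume (⋃ a ∈ P, ball a (1 / 2 : ℝ))).toReal = P.card * (Real.pi / 4) := by
    rw [measure_biUnion_finset hd fun _ _ => measurableSet_ball, ENNReal.toReal_sum
      fun _ _ => measure_ball_lt_top.ne, Finset.sum_congr rfl fun a _ => vol_ball a (1 / 2) (by norm_num),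
      Finset.sum_const, nsmul_eq_mul]
    ring
  have h2 : (⋃ a ∈ P, ball a (1 / 2 : ℝ)) ⊆ ball c (R + 1 / 2) := by
    intro z hz
    obtain ⟨a, ha, hza⟩ := Set.mem_iUnion₂.1 hz
    rw [mem_ball, dist_eq_norm] at hza ⊢
    calc ‖z - c‖ = ‖(z - a) - (c - a)‖ := by congr 1; ring
      _ ≤ _ := norm_sub_le _ _
      _ < R + 1 / 2 := by linarith [hPR a ha]
  have h3 : (volume (⋃ a ∈ P, ball a (1 / 2 : ℝ))).toReal ≤ Real.pi * (R + 1 / 2) ^ 2 := by
    rw [← vol_ball c (R + 1 / 2) (by linarith)]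
    exact ENNReal.toReal_mono measure_ball_lt_top.ne (measure_mono h2)
  rw [h1] at h3
  have h4 : Real.pi * ((P.card : ℝ) / 4) ≤ Real.pi * (R + 1 / 2) ^ 2 := by
    calc Real.pi * ((P.card : ℝ) / 4) = P.card * (Real.pi / 4) := by ring
      _ ≤ _ := h3
  have h5 := le_of_mul_le_mul_left h4 hpi
  nlinarith

/-- the sum of the inverse cubes of the distances -/
theorem cube_sum (P : Finset ℂ) (hP : ∀ a ∈ P, ∀ b ∈ P, a ≠ b → 1 ≤ ‖a - b‖) (c : ℂ)
    (hc : ∀ a ∈ P, 1 ≤ ‖c - a‖) : ∑ a ∈ P, (‖c - a‖ ^ 3)⁻¹ ≤ 81 := by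
  have hpi := Real.pi_pos
  set H : ℂ → ℝ := fun z => if 1 / 3 < ‖z‖ then (‖z‖ ^ 3)⁻¹ else 0 with hH
  have hHi : Integrable H volume := (cube_out (1 / 3) (by norm_num)).1
  have hHc : Integrable (fun z => H (z - c)) volume := hHi.comp_sub_right c
  have hHint : ∫ z, H (z - c) = 6 * Real.pi := by
    rw [integral_sub_right_eq_self H, (cube_out (1 / 3) (by norm_num)).2]
    ring
  have hHnn : ∀ z, 0 ≤ H z := by
    intro z
    simp only [hH]
    split_ifs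
    · positivity
    · exact le_rfl
  have hd : (↑P : Set ℂ).PairwiseDisjoint fun a => ball a (1 / 2) := by
    intro a ha b hb hne
    refine ball_disjoint_ball ?_
    rw [dist_eq_norm]
    have := hP a ha b hb hne
    linarith
  have h1 : ∀ a ∈ P, (‖c - a‖ ^ 3)⁻¹ * (Real.pi * (2 / 27)) ≤ ∫ z in ball a (1 / 2), H (z - c) := by
    intro a ha
    have hca := hc a ha
    have h2 : ∀ z ∈ ball a (1 / 2), (‖c - a‖ ^ 3)⁻¹ * (8 / 27) ≤ H (z - c) := by
      intro z hz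
      rw [mem_ball, dist_eq_norm] at hz
      have h3 : ‖z - c‖ ≤ 3 / 2 * ‖c - a‖ := by
        calc ‖z - c‖ = ‖(z - a) - (c - a)‖ := by congr 1; ring
          _ ≤ ‖z - a‖ + ‖c - a‖ := norm_sub_le _ _
          _ ≤ _ := by linarith
      have h4 : 1 / 3 < ‖z - c‖ := by
        have : ‖c - a‖ ≤ ‖z - a‖ + ‖z - c‖ := by
          calc ‖c - a‖ = ‖(z - a) - (z - c)‖ := by congr 1; ring
            _ ≤ _ := norm_sub_le _ _
        linarith
      simp only [hH]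
      rw [if_pos h4]
      calc (‖c - a‖ ^ 3)⁻¹ * (8 / 27) = ((3 / 2 * ‖c - a‖) ^ 3)⁻¹ := by
            rw [mul_pow, mul_inv]; norm_num; ring
        _ ≤ (‖z - c‖ ^ 3)⁻¹ :=
            inv_anti₀ (by positivity) (pow_le_pow_left₀ (norm_nonneg _) h3 3)
    have hfin : volume (ball a (1 / 2)) ≠ ⊤ := measure_ball_lt_top.ne
    have h5 : ∫ z in ball a (1 / 2), (‖c - a‖ ^ 3)⁻¹ * (8 / 27) ≤ ∫ z in ball a (1 / 2), H (z - c) :=
      setIntegral_mono_on (integrableOn_const hfin) hHc.integrableOn measurableSet_ball h2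
    rw [setIntegral_const, Measure.real, vol_ball a (1 / 2) (by norm_num), smul_eq_mul] at h5
    calc _ = Real.pi * (1 / 2) ^ 2 * ((‖c - a‖ ^ 3)⁻¹ * (8 / 27)) := by ring
      _ ≤ _ := h5
  have h6 := Finset.sum_le_sum h1
  rw [← Finset.sum_mul, ← integral_biUnion_finset P (fun _ _ => measurableSet_ball) hd
    fun _ _ => hHc.integrableOn] at h6
  have h7 : ∫ z in ⋃ a ∈ P, ball a (1 / 2), H (z - c) ≤ ∫ z, H (z - c) :=
    setIntegral_le_integral hHc (Filter.Eventually.of_forall fun z => hHnn _)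
  rw [hHint] at h7
  have h8 := h6.trans h7
  have h9 : Real.pi * ((∑ a ∈ P, (‖c - a‖ ^ 3)⁻¹) * (2 / 27)) ≤ Real.pi * 6 := by
    calc Real.pi * ((∑ a ∈ P, (‖c - a‖ ^ 3)⁻¹) * (2 / 27)) =
        (∑ a ∈ P, (‖c - a‖ ^ 3)⁻¹) * (Real.pi * (2 / 27)) := by ring
      _ ≤ 6 * Real.pi := h8
      _ = _ := by ring
  have h10 := le_of_mul_le_mul_left h9 hpi
  linarith

end Pool.MP_75bf3e_an.HB
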