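import Pool.Agent.Lib_MP_75bf3e_hb.GMain

/-! # The two lattices -/

set_option autoImplicit false

open MeasureTheory Metric

namespace Pool.MP_75bf3e_an.HB

open Pool.MP_75bf3e_an.BT

/-- the point of the lattice `ℤ[i]` with coordinates `m` -/
def pt (m : ℤ × ℤ) : ℂ := ⟨m.1, m.2⟩

theorem pt_re (m : ℤ × ℤ) : (pt m).re = m.1 := rfl
theorem pt_im (m : ℤ × ℤ) : (pt m).im = m.2 := rfl

theorem pt_add (m m' : ℤ × ℤ) : pt (m + m') = pt m + pt m' := by
  apply Complex.ext <;> simp [pt]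

theorem pt_sub (m m' : ℤ × ℤ) : pt (m - m') = pt m - pt m' := by
  apply Complex.ext <;> simp [pt]

/-- nearest lattice point -/
noncomputable def fl (z : ℂ) : ℤ × ℤ := (⌊z.re + 1 / 2⌋, ⌊z.im + 1 / 2⌋)

/-- the vector from the nearest lattice point -/
noncomputable def vS (z : ℂ) : ℂ := z - pt (fl z)

theorem measurable_vS : Measurable vS := by
  have h1 : Measurable (fun z : ℂ => ((⌊z.re + 1 / 2⌋ : ℤ) : ℝ)) :=
    (measurable_from_top (f := fun m : ℤ => (m : ℝ))).comp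
      (Int.measurable_floor.comp (Complex.measurable_re.add_const _))
  have h2 : Measurable (fun z : ℂ => ((⌊z.im + 1 / 2⌋ : ℤ) : ℝ)) :=
    (measurable_from_top (f := fun m : ℤ => (m : ℝ))).comp
      (Int.measurable_floor.comp (Complex.measurable_im.add_const _))
  have h3 : Measurable (fun z : ℂ => (((⌊z.re + 1 / 2⌋ : ℤ) : ℝ) : ℂ) +
      (((⌊z.im + 1 / 2⌋ : ℤ) : ℝ) : ℂ) * Complex.I) :=
    (Complex.measurable_ofReal.comp h1).add ((Complex.measurable_ofReal.comp h2).mul_const _)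
  have h4 : vS = fun z : ℂ => z - ((((⌊z.re + 1 / 2⌋ : ℤ) : ℝ) : ℂ) +
      (((⌊z.im + 1 / 2⌋ : ℤ) : ℝ) : ℂ) * Complex.I) := by
    funext z
    unfold vS pt fl
    congr 1
    apply Complex.ext <;> simp
  rw [h4]
  exact measurable_id.sub h3

theorem fl_add (z : ℂ) (m : ℤ × ℤ) : fl (z + pt m) = fl z + m := by
  unfold fl
  rw [Complex.add_re, Complex.add_im, pt_re, pt_im]
  ext
  · change ⌊z.re + m.1 + 1 / 2⌋ = ⌊z.re + 1 / 2⌋ + m.1
    rw [show z.re + (m.1 : ℝ) + 1 / 2 = z.re + 1 / 2 + (m.1 : ℝ) by ring, Int.floor_add_intCast]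
  · change ⌊z.im + m.2 + 1 / 2⌋ = ⌊z.im + 1 / 2⌋ + m.2
    rw [show z.im + (m.2 : ℝ) + 1 / 2 = z.im + 1 / 2 + (m.2 : ℝ) by ring, Int.floor_add_intCast]

theorem vS_add (z : ℂ) (m : ℤ × ℤ) : vS (z + pt m) = vS z := by
  unfold vS
  rw [fl_add, pt_add]
  ring

theorem fl_small (y : ℂ) (hy : ‖y‖ < 1 / 2) : fl y = 0 := by
  have h1 := (Complex.abs_re_le_norm y).trans_lt hy
  have h2 := (Complex.abs_im_le_norm y).trans_lt hy
  rw [abs_lt] at h1 h2
  unfold fl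
  ext
  · change ⌊y.re + 1 / 2⌋ = 0
    rw [Int.floor_eq_zero_iff]
    exact ⟨by linarith, by linarith⟩
  · change ⌊y.im + 1 / 2⌋ = 0
    rw [Int.floor_eq_zero_iff]
    exact ⟨by linarith, by linarith⟩

theorem vS_small (y : ℂ) (hy : ‖y‖ < 1 / 2) : vS y = y := by
  unfold vS
  rw [fl_small y hy]
  have : pt 0 = 0 := by apply Complex.ext <;> simp [pt]
  rw [this, sub_zero]

theorem vS_pt_add (m : ℤ × ℤ) (y : ℂ) (hy : ‖y‖ < 1 / 2) : vS (pt m + y) = y := by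
  rw [add_comm, vS_add, vS_small y hy]

theorem card_Icc_le (a R : ℝ) (hR : 0 ≤ R) :
    ((Finset.Icc ⌈a - R⌉ ⌊a + R⌋).card : ℝ) ≤ 2 * R + 1 := by
  rw [Int.card_Icc]
  have h1 : (⌊a + R⌋ : ℝ) ≤ a + R := Int.floor_le _
  have h2 : a - R ≤ (⌈a - R⌉ : ℝ) := Int.le_ceil _
  have h3 : (((⌊a + R⌋ + 1 - ⌈a - R⌉).toNat : ℤ) : ℝ) = max ((⌊a + R⌋ + 1 - ⌈a - R⌉ : ℤ) : ℝ) 0 := by
    rw [Int.toNat_eq_max]
    push_cast
    rfl
  have h4 : (((⌊a + R⌋ + 1 - ⌈a - R⌉).toNat : ℕ) : ℝ) =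
      (((⌊a + R⌋ + 1 - ⌈a - R⌉).toNat : ℤ) : ℝ) := (Int.cast_natCast _).symm
  rw [h4, h3]
  refine max_le ?_ (by linarith)
  push_cast
  linarith

/-- a box which contains the lattice points in a disc -/
noncomputable def bx (c : ℂ) (R : ℝ) : Finset (ℤ × ℤ) :=
  Finset.Icc ⌈c.re - R⌉ ⌊c.re + R⌋ ×ˢ Finset.Icc ⌈c.im - R⌉ ⌊c.im + R⌋

theorem card_bx (c : ℂ) (R : ℝ) (hR : 0 ≤ R) : ((bx c R).card : ℝ) ≤ (2 * R + 1) ^ 2 := by
  unfold bx
  rw [Finset.card_product, Nat.cast_mul, pow_two]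
  exact mul_le_mul (card_Icc_le _ _ hR) (card_Icc_le _ _ hR) (Nat.cast_nonneg _) (by linarith)

theorem mem_bx (c : ℂ) (R : ℝ) (m : ℤ × ℤ) (h : ‖c - pt m‖ ≤ R) : m ∈ bx c R := by
  have h1 := (Complex.abs_re_le_norm (c - pt m)).trans h
  have h2 := (Complex.abs_im_le_norm (c - pt m)).trans h
  rw [Complex.sub_re, pt_re, abs_le] at h1
  rw [Complex.sub_im, pt_im, abs_le] at h2
  unfold bx
  rw [Finset.mem_product, Finset.mem_Icc, Finset.mem_Icc, Int.ceil_le, Int.le_floor, Int.ceil_le,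
    Int.le_floor]
  exact ⟨⟨by linarith, by linarith⟩, by linarith, by linarith⟩

/-- `1 / (2 + 2 i)` -/
noncomputable def tau : ℂ := ⟨1 / 4, -(1 / 4)⟩

/-! ### the shifted lattice -/

/-- the points of the second lattice -/
noncomputable def vt (j : ℤ × ℤ) : ℂ := tau + pt j

theorem vt_re (j : ℤ × ℤ) : (vt j).re = j.1 + 1 / 4 := by
  unfold vt
  rw [Complex.add_re, pt_re]
  change 1 / 4 + (j.1 : ℝ) = _
  ring

theorem vt_im (j : ℤ × ℤ) : (vt j).im = j.2 + -(1 / 4) := by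
  unfold vt
  rw [Complex.add_im, pt_im]
  change -(1 / 4) + (j.2 : ℝ) = _
  ring

theorem quarter_le (j : ℤ) : (1 / 4 : ℝ) ≤ |(j : ℝ) + 1 / 4| := by
  rcases le_or_gt 0 j with h | h
  · have : (0 : ℝ) ≤ j := by exact_mod_cast h
    rw [abs_of_nonneg (by linarith)]
    linarith
  · have h1 : j ≤ -1 := by omega
    have : (j : ℝ) ≤ -1 := by exact_mod_cast h1
    rw [abs_of_neg (by linarith)]
    linarith

theorem quarter_le' (j : ℤ) : (1 / 4 : ℝ) ≤ |(j : ℝ) + -(1 / 4)| := by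
  rcases le_or_gt j 0 with h | h
  · have : (j : ℝ) ≤ 0 := by exact_mod_cast h
    rw [abs_of_neg (by linarith)]
    linarith
  · have h1 : 1 ≤ j := by omega
    have : (1 : ℝ) ≤ j := by exact_mod_cast h1
    rw [abs_of_nonneg (by linarith)]
    linarith

theorem vt_norm_ge (j : ℤ × ℤ) : 7 / 20 ≤ ‖vt j‖ := by
  have h1 := quarter_le j.1
  have h2 := quarter_le' j.2
  have h3 : ‖vt j‖ ^ 2 = |(j.1 : ℝ) + 1 / 4| ^ 2 + |(j.2 : ℝ) + -(1 / 4)| ^ 2 := by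
    rw [← Complex.normSq_eq_norm_sq, Complex.normSq_apply, vt_re, vt_im, sq_abs, sq_abs]
    ring
  have h4 := norm_nonneg (vt j)
  by_contra hcon
  push Not at hcon
  nlinarith

theorem vt_ne (j : ℤ × ℤ) : vt j ≠ 0 := norm_pos_iff.1 (by linarith [vt_norm_ge j])

theorem summable_cube : Summable fun j : ℤ × ℤ => (‖vt j‖ ^ 3)⁻¹ := by
  have s1 : Summable fun j : ℤ => 1 / |(j : ℝ) + 1 / 4| ^ (3 / 2 : ℝ) :=
    (Real.summable_one_div_int_add_rpow (1 / 4) (3 / 2)).2 (by norm_num)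
  have s2 : Summable fun j : ℤ => 1 / |(j : ℝ) + -(1 / 4)| ^ (3 / 2 : ℝ) :=
    (Real.summable_one_div_int_add_rpow (-(1 / 4)) (3 / 2)).2 (by norm_num)
  have s3 := s1.mul_of_nonneg s2 (fun j => by positivity) (fun j => by positivity)
  refine Summable.of_nonneg_of_le (fun j => by positivity) (fun j => ?_) s3
  have h1 : |(j.1 : ℝ) + 1 / 4| ≤ ‖vt j‖ := by
    rw [← vt_re]; exact Complex.abs_re_le_norm _
  have h2 : |(j.2 : ℝ) + -(1 / 4)| ≤ ‖vt j‖ := by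
    rw [← vt_im]; exact Complex.abs_im_le_norm _
  have p1 : 0 < |(j.1 : ℝ) + 1 / 4| := by linarith [quarter_le j.1]
  have p2 : 0 < |(j.2 : ℝ) + -(1 / 4)| := by linarith [quarter_le' j.2]
  have hv0 : 0 < ‖vt j‖ := by linarith [vt_norm_ge j]
  have h3 : ‖vt j‖ ^ 3 = ‖vt j‖ ^ (3 / 2 : ℝ) * ‖vt j‖ ^ (3 / 2 : ℝ) := by
    rw [← Real.rpow_add hv0, ← Real.rpow_natCast]
    norm_num
  rw [h3, mul_inv]
  have q1 : (‖vt j‖ ^ (3 / 2 : ℝ))⁻¹ ≤ 1 / |(j.1 : ℝ) + 1 / 4| ^ (3 / 2 : ℝ) := by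
    rw [inv_eq_one_div]
    exact one_div_le_one_div_of_le (by positivity) (Real.rpow_le_rpow p1.le h1 (by norm_num))
  have q2 : (‖vt j‖ ^ (3 / 2 : ℝ))⁻¹ ≤ 1 / |(j.2 : ℝ) + -(1 / 4)| ^ (3 / 2 : ℝ) := by
    rw [inv_eq_one_div]
    exact one_div_le_one_div_of_le (by positivity) (Real.rpow_le_rpow p2.le h2 (by norm_num))
  exact mul_le_mul q1 q2 (by positivity) (by positivity)

theorem sum_cube_le : ∃ C : ℝ, 0 ≤ C ∧ ∀ G : Finset (ℤ × ℤ), ∑ j ∈ G, (‖vt j‖ ^ 3)⁻¹ ≤ C :=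
  ⟨∑' j : ℤ × ℤ, (‖vt j‖ ^ 3)⁻¹, tsum_nonneg fun j => by positivity, fun G =>
    summable_cube.sum_le_tsum G fun j _ => by positivity⟩

/-! ### sums over discs and boxes -/

/-- the box of lattice points -/
noncomputable def box (N : ℕ) : Finset (ℤ × ℤ) :=
  Finset.Icc (-(N : ℤ)) N ×ˢ Finset.Icc (-(N : ℤ)) N

theorem card_box (N : ℕ) : (box N).card = (2 * N + 1) ^ 2 := by
  unfold box
  rw [Finset.card_product, Int.card_Icc, pow_two]
  have : ((N : ℤ) + 1 - -(N : ℤ)).toNat = 2 * N + 1 := by omega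
  rw [this]

theorem finite_disc (X : ℝ) : {j : ℤ × ℤ | ‖vt j‖ ≤ X}.Finite := by
  refine (bx (-tau) X).finite_toSet.subset fun j hj => ?_
  rw [Finset.mem_coe]
  refine mem_bx _ _ _ ?_
  have hj' : ‖vt j‖ ≤ X := hj
  rw [show -tau - pt j = -vt j by unfold vt; ring, norm_neg]
  exact hj'

/-- the points of the second lattice in the disc -/
noncomputable def disc (X : ℝ) : Finset (ℤ × ℤ) := (finite_disc X).toFinset

theorem mem_disc (X : ℝ) (j : ℤ × ℤ) : j ∈ disc X ↔ ‖vt j‖ ≤ X := by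
  unfold disc
  rw [Set.Finite.mem_toFinset]
  rfl

theorem pt_norm_ge (m : ℤ × ℤ) (hm : m ≠ 0) : 1 ≤ ‖pt m‖ := by
  have h : m.1 ≠ 0 ∨ m.2 ≠ 0 := by
    by_contra hcon
    push Not at hcon
    exact hm (Prod.ext hcon.1 hcon.2)
  rcases h with h | h
  · have h1 : (1 : ℤ) ≤ |m.1| := Int.one_le_abs h
    have h2 : (1 : ℝ) ≤ |(m.1 : ℝ)| := by exact_mod_cast h1
    exact h2.trans (by rw [← pt_re]; exact Complex.abs_re_le_norm _)
  · have h1 : (1 : ℤ) ≤ |m.2| := Int.one_le_abs h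
    have h2 : (1 : ℝ) ≤ |(m.2 : ℝ)| := by exact_mod_cast h1
    exact h2.trans (by rw [← pt_im]; exact Complex.abs_im_le_norm _)


/-! ### characters and sums -/

/-- the additive character -/
noncomputable def chi (θ : ℝ × ℝ) (m : ℤ × ℤ) : ℂ :=
  Complex.exp (2 * (Real.pi : ℂ) * Complex.I * ((θ.1 * m.1 + θ.2 * m.2 : ℝ) : ℂ))

theorem norm_chi (θ : ℝ × ℝ) (m : ℤ × ℤ) : ‖chi θ m‖ = 1 := norm_exp_phase _

theorem chi_add (θ : ℝ × ℝ) (m m' : ℤ × ℤ) : chi θ (m + m') = chi θ m * chi θ m' := by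
  unfold chi
  rw [← Complex.exp_add]
  congr 1
  change _ * (((θ.1 * ((m.1 + m'.1 : ℤ) : ℝ) + θ.2 * ((m.2 + m'.2 : ℤ) : ℝ) : ℝ)) : ℂ) = _
  push_cast
  ring

theorem chi_zero (m : ℤ × ℤ) : chi (0, 0) m = 1 := by
  unfold chi
  simp

/-- the sum over the disc -/
noncomputable def D (n : ℕ) (θ : ℝ × ℝ) (X : ℝ) : ℂ := ∑ j ∈ disc X, F n (vt j) * chi θ j

theorem box_sum (n : ℕ) (θ : ℝ × ℝ) (X : ℝ) (hX : 0 ≤ X) (N : ℕ) (hN : X + 1 ≤ N)
    (hN2 : (N : ℝ) ≤ X + 2) (m : ℤ × ℤ) (hm : m ∈ box N) :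
    ‖∑ s ∈ box (2 * N), F n (vt (m - s)) * chi θ (m - s) - D n θ X‖ ≤ 900 := by
  classical
  -- reindex
  set G : Finset (ℤ × ℤ) := (box (2 * N)).image (fun s => m - s) with hG
  have hinj : Function.Injective (fun s : ℤ × ℤ => m - s) := fun a b h => by
    have : m - a = m - b := h
    exact sub_right_injective this
  have e1 : ∑ s ∈ box (2 * N), F n (vt (m - s)) * chi θ (m - s) =
      ∑ j ∈ G, F n (vt j) * chi θ j := by
    rw [hG, Finset.sum_image fun a _ b _ h => hinj h]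
  have hsub : disc X ⊆ G := by
    intro j hj
    rw [mem_disc] at hj
    rw [hG, Finset.mem_image]
    refine ⟨m - j, ?_, by abel⟩
    have h1 : |(vt j).re| ≤ X := (Complex.abs_re_le_norm _).trans hj
    have h2 : |(vt j).im| ≤ X := (Complex.abs_im_le_norm _).trans hj
    rw [vt_re, abs_le] at h1
    rw [vt_im, abs_le] at h2
    unfold box at hm ⊢
    rw [Finset.mem_product, Finset.mem_Icc, Finset.mem_Icc] at hm ⊢
    have a1 : (-(N : ℤ) : ℤ) ≤ j.1 := by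
      have : (-(N : ℝ)) ≤ (j.1 : ℝ) := by linarith [h1.1]
      exact_mod_cast this
    have a2 : j.1 ≤ (N : ℤ) := by
      have : ((j.1 : ℝ)) ≤ (N : ℝ) := by linarith [h1.2]
      exact_mod_cast this
    have a3 : (-(N : ℤ) : ℤ) ≤ j.2 := by
      have : (-(N : ℝ)) ≤ (j.2 : ℝ) := by linarith [h2.1]
      exact_mod_cast this
    have a4 : j.2 ≤ (N : ℤ) := by
      have : ((j.2 : ℝ)) ≤ (N : ℝ) := by linarith [h2.2]
      exact_mod_cast this
    change (-((2 * N : ℕ) : ℤ) ≤ m.1 - j.1 ∧ m.1 - j.1 ≤ ((2 * N : ℕ) : ℤ)) ∧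
      -((2 * N : ℕ) : ℤ) ≤ m.2 - j.2 ∧ m.2 - j.2 ≤ ((2 * N : ℕ) : ℤ)
    push_cast
    omega
  rw [e1]
  unfold D
  rw [← Finset.sum_sdiff hsub, add_sub_cancel_right]
  have hterm : ∀ j ∈ G \ disc X, ‖F n (vt j) * chi θ j‖ ≤ 900 / ((4 * N + 1 : ℝ)) ^ 2 := by
    intro j hj
    have hj' : X < ‖vt j‖ := by
      have h1 := (Finset.mem_sdiff.1 hj).2
      rw [mem_disc, not_le] at h1
      exact h1
    have h7 := vt_norm_ge j
    have h8 : (4 * N + 1 : ℝ) ≤ 30 * ‖vt j‖ := by linarith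
    have hv0 : 0 < ‖vt j‖ := by linarith
    rw [norm_mul, norm_chi, mul_one]
    refine (norm_F_le n _).trans ?_
    rw [inv_eq_one_div, div_le_div_iff₀ (by positivity) (by positivity), one_mul]
    have h9 : (4 * N + 1 : ℝ) ^ 2 ≤ (30 * ‖vt j‖) ^ 2 := pow_le_pow_left₀ (by positivity) h8 2
    linarith [h9, (by ring : (30 * ‖vt j‖) ^ 2 = 900 * ‖vt j‖ ^ 2)]
  refine (norm_sum_le_of_le _ hterm).trans ?_
  rw [Finset.sum_const, nsmul_eq_mul]
  have hc : ((G \ disc X).card : ℝ) ≤ (4 * N + 1 : ℝ) ^ 2 := by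
    have h1 : (G \ disc X).card ≤ (box (2 * N)).card :=
      (Finset.card_le_card Finset.sdiff_subset).trans Finset.card_image_le
    rw [card_box] at h1
    have h2 : ((G \ disc X).card : ℝ) ≤ (((2 * (2 * N) + 1) ^ 2 : ℕ) : ℝ) := by exact_mod_cast h1
    push_cast at h2
    calc _ ≤ _ := h2
      _ = _ := by ring
  calc ((G \ disc X).card : ℝ) * (900 / ((4 * N + 1 : ℝ)) ^ 2)
      ≤ (4 * N + 1 : ℝ) ^ 2 * (900 / ((4 * N + 1 : ℝ)) ^ 2) := by gcongr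
    _ = 900 := by field_simp

/-! ### the configuration -/

/-- the targets -/
noncomputable def TT (N : ℕ) : Finset ℂ := (box N).image fun m => 4 * vt m

/-- the sources -/
noncomputable def SS (N : ℕ) : Finset ℂ := (box (2 * N)).image fun s => 4 * pt s

theorem inj_T : Function.Injective fun m => 4 * vt m := by
  intro m m' h
  have h1 : 4 * vt m = 4 * vt m' := h
  have h2 : vt m = vt m' := mul_left_cancel₀ (by norm_num) h1
  by_contra hne
  have h3 := pt_norm_ge (m - m') (sub_ne_zero.2 hne)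
  have h4 : pt (m - m') = vt m - vt m' := by unfold vt; rw [pt_sub]; ring
  rw [h4, h2, sub_self, norm_zero] at h3
  linarith

theorem inj_S : Function.Injective fun m => 4 * pt m := by
  intro m m' h
  have h1 : 4 * pt m = 4 * pt m' := h
  have h2 : pt m = pt m' := mul_left_cancel₀ (by norm_num) h1
  by_contra hne
  have h3 := pt_norm_ge (m - m') (sub_ne_zero.2 hne)
  rw [pt_sub, h2, sub_self, norm_zero] at h3
  linarith

theorem cfg_lat (N : ℕ) : Cfg (TT N) (SS N) := by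
  refine ⟨?_, ?_, ?_⟩
  · intro a ha b hb hne
    obtain ⟨m, _, rfl⟩ := Finset.mem_image.1 ha
    obtain ⟨m', _, rfl⟩ := Finset.mem_image.1 hb
    have hmm : m ≠ m' := fun h => hne (by rw [h])
    have h3 := pt_norm_ge (m - m') (sub_ne_zero.2 hmm)
    have h4 : 4 * vt m - 4 * vt m' = 4 * pt (m - m') := by unfold vt; rw [pt_sub]; ring
    rw [h4, norm_mul, Complex.norm_ofNat]
    linarith
  · intro a ha b hb hne
    obtain ⟨m, _, rfl⟩ := Finset.mem_image.1 ha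
    obtain ⟨m', _, rfl⟩ := Finset.mem_image.1 hb
    have hmm : m ≠ m' := fun h => hne (by rw [h])
    have h3 := pt_norm_ge (m - m') (sub_ne_zero.2 hmm)
    have h4 : 4 * pt m - 4 * pt m' = 4 * pt (m - m') := by rw [pt_sub]; ring
    rw [h4, norm_mul, Complex.norm_ofNat]
    linarith
  · intro a ha b hb
    obtain ⟨m, _, rfl⟩ := Finset.mem_image.1 ha
    obtain ⟨m', _, rfl⟩ := Finset.mem_image.1 hb
    have h3 := vt_norm_ge (m - m')
    have h4 : 4 * vt m - 4 * pt m' = 4 * vt (m - m') := by unfold vt; rw [pt_sub]; ring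
    rw [h4, norm_mul, Complex.norm_ofNat]
    linarith

theorem F_four (n : ℕ) (v : ℂ) : F n (4 * v) = F n v / 16 := by
  unfold F
  have h1 : starRingEnd ℂ (4 * v) / (4 * v) = starRingEnd ℂ v / v := by
    rw [map_mul, map_ofNat, mul_div_mul_left _ _ (by norm_num)]
  rw [h1, norm_mul, Complex.norm_ofNat, div_div]
  congr 1
  push_cast
  ring

theorem fl_pt (s : ℤ × ℤ) : fl (pt s) = s := by
  have h := fl_add 0 s
  rw [zero_add, fl_small 0 (by norm_num), zero_add] at h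
  exact h

/-- the bound for all partial sums -/
theorem D_bound (n : ℕ) (hn : 1 ≤ n) (A : ℝ) (hA : 0 ≤ A) (hI : Ineq n A) (θ : ℝ × ℝ) (X : ℝ) :
    ‖D n θ X‖ ≤ 33 * (240 * 13449 ^ 2) * (1 + A * √(1 + Real.log n)) := by
  have hn1 : (1 : ℝ) ≤ n := by exact_mod_cast hn
  have hlog : 0 ≤ Real.log n := Real.log_nonneg hn1
  set k : ℝ := 1 + Real.log n with hk
  have hk1 : 1 ≤ k := by linarith
  have hAk : 0 ≤ A * √k := by positivity
  rcases lt_or_ge X 0 with hX | hX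
  · have : disc X = ∅ := by
      rw [Finset.eq_empty_iff_forall_notMem]
      intro j hj
      rw [mem_disc] at hj
      linarith [norm_nonneg (vt j)]
    unfold D
    rw [this, Finset.sum_empty, norm_zero]
    positivity
  set N : ℕ := ⌈X⌉₊ + 1 with hN
  have hN1 : X + 1 ≤ N := by
    rw [hN]
    push_cast
    linarith [Nat.le_ceil X]
  have hN2 : (N : ℝ) ≤ X + 2 := by
    rw [hN]
    push_cast
    linarith [(Nat.ceil_lt_add_one hX).le]
  set a : ℂ → ℂ := fun z => chi θ (-fl (z / 4)) with ha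
  have hdis := discrete n hn A hA hI (cfg_lat N) a
  have e0 : ∀ s : ℤ × ℤ, a (4 * pt s) = chi θ (-s) := by
    intro s
    simp only [ha]
    rw [mul_div_cancel_left₀ _ (by norm_num : (4 : ℂ) ≠ 0), fl_pt]
  have e1 : ∑ s ∈ SS N, ‖a s‖ ^ 2 = (2 * (2 * (N : ℝ)) + 1) ^ 2 := by
    have : ∀ s ∈ SS N, ‖a s‖ ^ 2 = 1 := fun s _ => by
      simp only [ha]
      rw [norm_chi, one_pow]
    rw [Finset.sum_congr rfl this, Finset.sum_const, nsmul_eq_mul, mul_one]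
    unfold SS
    rw [Finset.card_image_of_injective _ inj_S, card_box]
    push_cast
    ring
  have e2 : ∀ m ∈ box N, (‖D n θ X‖ - 900) / 16 ≤
      ‖∑ s ∈ SS N, F n (4 * vt m - s) * a s‖ := by
    intro m hm
    have h1 : ∑ s ∈ SS N, F n (4 * vt m - s) * a s =
        chi θ (-m) / 16 * ∑ s ∈ box (2 * N), F n (vt (m - s)) * chi θ (m - s) := by
      unfold SS
      rw [Finset.sum_image fun x _ y _ h => inj_S h, Finset.mul_sum]
      refine Finset.sum_congr rfl fun s _ => ?_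
      have h2 : 4 * vt m - 4 * pt s = 4 * vt (m - s) := by unfold vt; rw [pt_sub]; ring
      rw [h2, F_four, e0]
      have h3 : chi θ (-s) = chi θ (-m) * chi θ (m - s) := by
        rw [← chi_add]
        congr 1
        abel
      rw [h3]
      ring
    rw [h1, norm_mul, norm_div, norm_chi, Complex.norm_ofNat]
    have h4 := box_sum n θ X hX N hN1 hN2 m hm
    have h5 : ‖D n θ X‖ ≤ ‖∑ s ∈ box (2 * N), F n (vt (m - s)) * chi θ (m - s)‖ +
        ‖∑ s ∈ box (2 * N), F n (vt (m - s)) * chi θ (m - s) - D n θ X‖ := by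
      calc ‖D n θ X‖ = ‖(∑ s ∈ box (2 * N), F n (vt (m - s)) * chi θ (m - s)) -
            (∑ s ∈ box (2 * N), F n (vt (m - s)) * chi θ (m - s) - D n θ X)‖ := by
              congr 1
              ring
        _ ≤ _ := norm_sub_le _ _
    linarith
  rcases le_or_gt ‖D n θ X‖ 900 with hD | hD
  · nlinarith
  have e3 : (2 * (N : ℝ) + 1) ^ 2 * ((‖D n θ X‖ - 900) / 16) ^ 2 ≤
      ∑ t ∈ TT N, ‖∑ s ∈ SS N, F n (t - s) * a s‖ ^ 2 := by
    unfold TT
    rw [Finset.sum_image fun x _ y _ h => inj_T h]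
    have h1 : ∀ m ∈ box N, ((‖D n θ X‖ - 900) / 16) ^ 2 ≤
        ‖∑ s ∈ SS N, F n (4 * vt m - s) * a s‖ ^ 2 := fun m hm =>
      pow_le_pow_left₀ (by linarith) (e2 m hm) 2
    refine le_trans (le_of_eq ?_) (Finset.sum_le_sum h1)
    rw [Finset.sum_const, nsmul_eq_mul, card_box]
    push_cast
    ring
  rw [e1] at hdis
  have hN0 : (0 : ℝ) ≤ N := Nat.cast_nonneg N
  have e4 : (2 * (N : ℝ) + 1) ^ 2 * ((‖D n θ X‖ - 900) / 16) ^ 2 ≤
      (2 * (N : ℝ) + 1) ^ 2 * ((240 * 13449 ^ 2) ^ 2 * (1 + A ^ 2 * k) * 4) := by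
    refine (e3.trans hdis).trans ?_
    have h1 : (2 * (2 * (N : ℝ)) + 1) ^ 2 ≤ 4 * (2 * (N : ℝ) + 1) ^ 2 := by nlinarith
    calc (240 * 13449 ^ 2) ^ 2 * (1 + A ^ 2 * k) * (2 * (2 * (N : ℝ)) + 1) ^ 2
        ≤ (240 * 13449 ^ 2) ^ 2 * (1 + A ^ 2 * k) * (4 * (2 * (N : ℝ) + 1) ^ 2) := by gcongr
      _ = _ := by ring
  have e5 : ((‖D n θ X‖ - 900) / 16) ^ 2 ≤ (240 * 13449 ^ 2) ^ 2 * (1 + A ^ 2 * k) * 4 :=
    le_of_mul_le_mul_left e4 (by positivity)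
  have hkk : √k * √k = k := Real.mul_self_sqrt (by linarith)
  have e6 : (‖D n θ X‖ - 900) ^ 2 ≤ (32 * (240 * 13449 ^ 2) * (1 + A * √k)) ^ 2 := by
    have h1 : 1 + A ^ 2 * k ≤ (1 + A * √k) ^ 2 := by
      have : (1 + A * √k) ^ 2 = 1 + A ^ 2 * (√k * √k) + 2 * (A * √k) := by ring
      rw [this, hkk]
      linarith
    calc (‖D n θ X‖ - 900) ^ 2 = 256 * ((‖D n θ X‖ - 900) / 16) ^ 2 := by ring
      _ ≤ 256 * ((240 * 13449 ^ 2) ^ 2 * (1 + A ^ 2 * k) * 4) := by gcongr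
      _ ≤ 256 * ((240 * 13449 ^ 2) ^ 2 * (1 + A * √k) ^ 2 * 4) := by gcongr
      _ = _ := by ring
  have e7 : ‖D n θ X‖ - 900 ≤ 32 * (240 * 13449 ^ 2) * (1 + A * √k) :=
    le_of_sq_le_sq e6 (by positivity)
  nlinarith

end Pool.MP_75bf3e_an.HB
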