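import Mathlib

/-! # Integrals of powers of the norm in the plane -/

set_option autoImplicit false

open MeasureTheory Metric

namespace Pool.MP_75bf3e_an.HB

theorem vol_ball (c : ℂ) (r : ℝ) (hr : 0 ≤ r) : (volume (ball c r)).toReal = Real.pi * r ^ 2 := by
  rw [Complex.volume_ball, ENNReal.toReal_mul, ENNReal.toReal_pow, ENNReal.toReal_ofReal hr]
  simp [mul_comm]

theorem vol_unit : (volume (ball (0 : ℂ) 1)).toReal = Real.pi := by
  rw [vol_ball _ _ zero_le_one]; ring

/-- radial functions -/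
theorem rad_integrable (f : ℝ → ℝ) (h : IntegrableOn (fun y : ℝ => y * f y) (Set.Ioi 0)) :
    Integrable (fun z : ℂ => f ‖z‖) volume := by
  have h1 := (integrable_fun_norm_addHaar (E := ℂ) (μ := volume) (f := f)).2 ?_
  · exact h1
  · refine h.congr_fun ?_ measurableSet_Ioi
    intro y _
    simp [Complex.finrank_real_complex]

theorem rad_integral (f : ℝ → ℝ) :
    ∫ z : ℂ, f ‖z‖ = 2 * Real.pi * ∫ y in Set.Ioi (0 : ℝ), y * f y := by
  have h1 := integral_fun_norm_addHaar (E := ℂ) (μ := volume) f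
  rw [h1, Complex.finrank_real_complex, Measure.real, vol_unit]
  simp only [nsmul_eq_mul, smul_eq_mul, Nat.reduceSub, pow_one, Nat.cast_ofNat]
  ring

/-- the power on a disc about `0` -/
theorem pow_ball (a : ℝ) (ha : -2 < a) (r : ℝ) (hr : 0 < r) :
    IntegrableOn (fun z : ℂ => ‖z‖ ^ a) (ball 0 r) volume ∧
      ∫ z in ball (0 : ℂ) r, ‖z‖ ^ a = 2 * Real.pi * (r ^ (a + 2) / (a + 2)) := by
  set f : ℝ → ℝ := (Set.Iio r).indicator (fun y => y ^ a) with hf
  have e1 : (ball (0 : ℂ) r).indicator (fun z : ℂ => ‖z‖ ^ a) = fun z : ℂ => f ‖z‖ := by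
    funext z
    by_cases hz : ‖z‖ < r
    · rw [Set.indicator_of_mem (by simpa using hz), hf, Set.indicator_of_mem (by simpa using hz)]
    · rw [Set.indicator_of_notMem (by simpa using hz), hf, Set.indicator_of_notMem (by simpa using hz)]
  have e2 : Set.EqOn (fun y : ℝ => y * f y) ((Set.Iio r).indicator fun y => y ^ (a + 1))
      (Set.Ioi 0) := by
    intro y hy
    have hy' : (0 : ℝ) < y := hy
    by_cases hyr : y < r
    · simp only [hf]
      rw [Set.indicator_of_mem (show y ∈ Set.Iio r from hyr),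
        Set.indicator_of_mem (show y ∈ Set.Iio r from hyr), Real.rpow_add_one hy'.ne', mul_comm]
    · simp only [hf]
      rw [Set.indicator_of_notMem (show y ∉ Set.Iio r from hyr),
        Set.indicator_of_notMem (show y ∉ Set.Iio r from hyr), mul_zero]
  have hI : Set.Ioi (0 : ℝ) ∩ Set.Iio r = Set.Ioo 0 r := Set.Ioi_inter_Iio
  have hint : IntegrableOn (fun y : ℝ => y ^ (a + 1)) (Set.Ioo 0 r) := by
    have := (intervalIntegral.intervalIntegrable_rpow' (a := 0) (b := r)
      (show -1 < a + 1 by linarith))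
    rw [intervalIntegrable_iff_integrableOn_Ioo_of_le hr.le] at this
    exact this
  constructor
  · rw [← integrable_indicator_iff measurableSet_ball, e1]
    refine rad_integrable f ?_
    refine IntegrableOn.congr_fun ?_ e2.symm measurableSet_Ioi
    rw [IntegrableOn, integrable_indicator_iff measurableSet_Iio, IntegrableOn,
      Measure.restrict_restrict measurableSet_Iio, Set.inter_comm, hI]
    exact hint
  · rw [← integral_indicator measurableSet_ball, e1, rad_integral f,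
      setIntegral_congr_fun measurableSet_Ioi e2, setIntegral_indicator measurableSet_Iio, hI,
      ← integral_Ioc_eq_integral_Ioo, ← intervalIntegral.integral_of_le hr.le,
      integral_rpow (Or.inl (by linarith : -1 < a + 1)), Real.zero_rpow (by linarith)]
    rw [show a + 1 + 1 = a + 2 by ring]
    ring

/-- the power `-3` outside a disc -/
theorem cube_out (X : ℝ) (hX : 0 < X) :
    Integrable (fun z : ℂ => if X < ‖z‖ then (‖z‖ ^ 3)⁻¹ else 0) volume ∧
      ∫ z : ℂ, (if X < ‖z‖ then (‖z‖ ^ 3)⁻¹ else 0) = 2 * Real.pi / X := by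
  set f : ℝ → ℝ := fun y => if X < y then (y ^ 3)⁻¹ else 0 with hf
  have e2 : Set.EqOn (fun y : ℝ => y * f y) ((Set.Ioi X).indicator fun y => y ^ (-2 : ℝ))
      (Set.Ioi 0) := by
    intro y hy
    have hy' : (0 : ℝ) < y := hy
    by_cases hyr : X < y
    · rw [Set.indicator_of_mem (show y ∈ Set.Ioi X from hyr)]
      simp only [hf, if_pos hyr]
      rw [Real.rpow_neg hy'.le, show (2 : ℝ) = ((2 : ℕ) : ℝ) by norm_num, Real.rpow_natCast]
      field_simp
    · rw [Set.indicator_of_notMem (show y ∉ Set.Ioi X from hyr)]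
      simp only [hf, if_neg hyr, mul_zero]
  have hI : Set.Ioi (0 : ℝ) ∩ Set.Ioi X = Set.Ioi X := by
    rw [Set.Ioi_inter_Ioi, sup_eq_right.2 hX.le]
  constructor
  · refine rad_integrable f ?_
    refine IntegrableOn.congr_fun ?_ e2.symm measurableSet_Ioi
    rw [IntegrableOn, integrable_indicator_iff measurableSet_Ioi, IntegrableOn,
      Measure.restrict_restrict measurableSet_Ioi, Set.inter_comm, hI]
    exact integrableOn_Ioi_rpow_of_lt (by norm_num) hX
  · change ∫ z : ℂ, f ‖z‖ = _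
    rw [rad_integral f, setIntegral_congr_fun measurableSet_Ioi e2,
      setIntegral_indicator measurableSet_Ioi, hI, integral_Ioi_rpow_of_lt (by norm_num) hX]
    rw [show (-2 : ℝ) + 1 = -1 by norm_num, Real.rpow_neg_one]
    field_simp

/-- the `A_2` product of the power on an arbitrary disc -/
theorem pow_A2 (e : ℝ) (he : 0 < e) (he1 : e ≤ 1) (c : ℂ) (r : ℝ) (hr : 0 < r) :
    IntegrableOn (fun z : ℂ => ‖z‖ ^ (-2 + e)) (ball c r) volume ∧
    IntegrableOn (fun z : ℂ => ‖z‖ ^ (2 - e)) (ball c r) volume ∧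
    ((Real.pi * r ^ 2)⁻¹ * ∫ z in ball c r, ‖z‖ ^ (-2 + e)) *
      ((Real.pi * r ^ 2)⁻¹ * ∫ z in ball c r, ‖z‖ ^ (2 - e)) ≤ 18 / e := by
  have hpi := Real.pi_pos
  have hsub : ball c r ⊆ ball 0 (‖c‖ + r) := by
    intro z hz
    rw [mem_ball_zero_iff]
    rw [mem_ball, dist_eq_norm] at hz
    calc ‖z‖ = ‖(z - c) + c‖ := by ring_nf
      _ ≤ ‖z - c‖ + ‖c‖ := norm_add_le _ _
      _ < ‖c‖ + r := by linarith
  have hc0 : 0 < ‖c‖ + r := by have := norm_nonneg c; linarith
  have i1 : IntegrableOn (fun z : ℂ => ‖z‖ ^ (-2 + e)) (ball c r) volume :=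
    (pow_ball (-2 + e) (by linarith) _ hc0).1.mono_set hsub
  have i2 : IntegrableOn (fun z : ℂ => ‖z‖ ^ (2 - e)) (ball c r) volume :=
    (pow_ball (2 - e) (by linarith) _ hc0).1.mono_set hsub
  refine ⟨i1, i2, ?_⟩
  have hvol : (volume (ball c r)).toReal = Real.pi * r ^ 2 := vol_ball c r hr.le
  have hvol' : volume.real (ball c r) = Real.pi * r ^ 2 := hvol
  have hfin : volume (ball c r) ≠ ⊤ := measure_ball_lt_top.ne
  -- upper bound of the second factor
  have b2 : ∀ D : ℝ, (∀ z ∈ ball c r, ‖z‖ ≤ D) → 0 ≤ D →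
      (Real.pi * r ^ 2)⁻¹ * ∫ z in ball c r, ‖z‖ ^ (2 - e) ≤ D ^ (2 - e) := by
    intro D hD hD0
    have h1 : ∫ z in ball c r, ‖z‖ ^ (2 - e) ≤ ∫ z in ball c r, D ^ (2 - e) := by
      refine setIntegral_mono_on i2 (integrableOn_const hfin) measurableSet_ball ?_
      intro z hz
      exact Real.rpow_le_rpow (norm_nonneg z) (hD z hz) (by linarith)
    rw [setIntegral_const, hvol', smul_eq_mul] at h1
    calc (Real.pi * r ^ 2)⁻¹ * ∫ z in ball c r, ‖z‖ ^ (2 - e)
        ≤ (Real.pi * r ^ 2)⁻¹ * (Real.pi * r ^ 2 * D ^ (2 - e)) := by gcongr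
      _ = D ^ (2 - e) := by field_simp
  rcases le_or_gt (2 * r) ‖c‖ with hc | hc
  · -- far from `0`
    have hcp : 0 < ‖c‖ := by linarith
    have b1 : (Real.pi * r ^ 2)⁻¹ * ∫ z in ball c r, ‖z‖ ^ (-2 + e) ≤ (‖c‖ / 2) ^ (-2 + e) := by
      have h1 : ∫ z in ball c r, ‖z‖ ^ (-2 + e) ≤ ∫ z in ball c r, (‖c‖ / 2) ^ (-2 + e) := by
        refine setIntegral_mono_on i1 (integrableOn_const hfin) measurableSet_ball ?_
        intro z hz
        refine Real.rpow_le_rpow_of_nonpos (by positivity) ?_ (by linarith)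
        rw [mem_ball, dist_eq_norm] at hz
        have h3 : ‖c‖ ≤ ‖z‖ + ‖z - c‖ := by
          calc ‖c‖ = ‖z - (z - c)‖ := by ring_nf
            _ ≤ ‖z‖ + ‖z - c‖ := norm_sub_le _ _
        linarith
      rw [setIntegral_const, hvol', smul_eq_mul] at h1
      calc (Real.pi * r ^ 2)⁻¹ * ∫ z in ball c r, ‖z‖ ^ (-2 + e)
          ≤ (Real.pi * r ^ 2)⁻¹ * (Real.pi * r ^ 2 * (‖c‖ / 2) ^ (-2 + e)) := by gcongr
        _ = (‖c‖ / 2) ^ (-2 + e) := by field_simp
    have b3 := b2 (3 * ‖c‖ / 2) (by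
      intro z hz
      rw [mem_ball, dist_eq_norm] at hz
      have h3 : ‖z‖ ≤ ‖z - c‖ + ‖c‖ := by
        calc ‖z‖ = ‖(z - c) + c‖ := by ring_nf
          _ ≤ _ := norm_add_le _ _
      linarith) (by positivity)
    have hnn : 0 ≤ (Real.pi * r ^ 2)⁻¹ * ∫ z in ball c r, ‖z‖ ^ (2 - e) := by
      refine mul_nonneg (by positivity) (setIntegral_nonneg measurableSet_ball fun z _ => by positivity)
    calc _ ≤ (‖c‖ / 2) ^ (-2 + e) * (3 * ‖c‖ / 2) ^ (2 - e) :=
          mul_le_mul b1 b3 hnn (by positivity)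
      _ = 3 ^ (2 - e) := by
          rw [show 3 * ‖c‖ / 2 = 3 * (‖c‖ / 2) by ring, Real.mul_rpow (by norm_num) (by positivity),
            show (-2 + e) = -(2 - e) by ring, Real.rpow_neg (by positivity)]
          have : (‖c‖ / 2) ^ (2 - e) ≠ 0 := by positivity
          field_simp
      _ ≤ 3 ^ (2 : ℝ) := Real.rpow_le_rpow_of_exponent_le (by norm_num) (by linarith)
      _ = 9 := by norm_num
      _ ≤ 18 / e := by rw [le_div_iff₀ he]; linarith
  · -- near `0`
    have hs3 : ball c r ⊆ ball 0 (3 * r) := hsub.trans (ball_subset_ball (by linarith))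
    have b1 : (Real.pi * r ^ 2)⁻¹ * ∫ z in ball c r, ‖z‖ ^ (-2 + e) ≤
        (Real.pi * r ^ 2)⁻¹ * (2 * Real.pi * ((3 * r) ^ e / e)) := by
      have h1 : ∫ z in ball c r, ‖z‖ ^ (-2 + e) ≤ ∫ z in ball (0 : ℂ) (3 * r), ‖z‖ ^ (-2 + e) := by
        refine setIntegral_mono_set (pow_ball (-2 + e) (by linarith) _ (by positivity)).1 ?_
          hs3.eventuallyLE
        exact Filter.Eventually.of_forall fun z => by
          show (0 : ℝ) ≤ ‖z‖ ^ (-2 + e)
          positivity
      rw [(pow_ball (-2 + e) (by linarith) _ (by positivity)).2,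
        show -2 + e + 2 = e by ring] at h1
      gcongr
    have b3 := b2 (3 * r) (by
      intro z hz
      have := hs3 hz
      rw [mem_ball_zero_iff] at this
      exact this.le) (by positivity)
    have hnn : 0 ≤ (Real.pi * r ^ 2)⁻¹ * ∫ z in ball c r, ‖z‖ ^ (2 - e) := by
      refine mul_nonneg (by positivity) (setIntegral_nonneg measurableSet_ball fun z _ => by positivity)
    calc _ ≤ (Real.pi * r ^ 2)⁻¹ * (2 * Real.pi * ((3 * r) ^ e / e)) * (3 * r) ^ (2 - e) :=
          mul_le_mul b1 b3 hnn (by positivity)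
      _ = (Real.pi * r ^ 2)⁻¹ * (2 * Real.pi / e) * ((3 * r) ^ e * (3 * r) ^ (2 - e)) := by ring
      _ = (Real.pi * r ^ 2)⁻¹ * (2 * Real.pi / e) * (3 * r) ^ (2 : ℝ) := by
          rw [← Real.rpow_add (by positivity), show e + (2 - e) = 2 by ring]
      _ = 18 / e := by
          rw [show (2 : ℝ) = ((2 : ℕ) : ℝ) by norm_num, Real.rpow_natCast]
          field_simp
          norm_num
      _ ≤ 18 / e := le_rfl

end Pool.MP_75bf3e_an.HB
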